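import Pool.Agent.H62.SH.Stm
import Pool.Agent.H62.Mul2
import Pool.Agent.H62.Rec5

/-!
# The share of the cubic extensions with the property (R), II
-/

set_option autoImplicit false

namespace Pool.Agent.H62.SH

open NumberField IsDedekindDomain
open Pool.Agent.Q7.LK (sy mon IsPow vl Tab Tb)
open Pool.Agent.Q283.LQ (Sm Box Nest)

open Classical in
/-- JOB P3C (from `S_P2` = `Pool.Agent.H47.SH.p2`).  The good tables are more than a third of all admissible ones: `τ.1 j 0` is the symbol of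
`ζ`, `τ.1 j 1` the symbol of `√-3` at the `j`-th prime.
Proof.  Both sets are products of a set of matrices `τ.1` and a set of the `τ.2`; the number of the vectors `(τ.1 j 1)_j` with
`∑ e j τ.1 j 1 ≠ 0` is `2 / 3` of all (`3 ^ (k + 1)`), `2/3 * 1/2 = 1/3`. -/
def S_P3C : Prop := ∀ (k : ℕ) (e : Fin (k + 1) → ZMod 3), (∀ i, e i ≠ 0) →
  0 < ((Finset.univ : Finset (Tab 3 2 (k + 1))).filter fun τ => ∀ j, τ.1 j 0 = 0).card ∧
  (1 / 3 : ℝ) * (((Finset.univ : Finset (Tab 3 2 (k + 1))).filter fun τ => ∀ j, τ.1 j 0 = 0).card : ℝ) <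
    (((Finset.univ : Finset (Tab 3 2 (k + 1))).filter fun τ =>
      (∀ j, τ.1 j 0 = 0) ∧ ∑ j, e j * τ.1 j 1 ≠ 0 ∧ NS e τ.2).card : ℝ)

open Classical in
/-- JOB P3L.  The condition on the local cubes from the nonsingularity.
Proof.  A variant of `Pool.Agent.H68.EX.loc` (file H68/EX/Loc.lean; `cube_mod` is used unchanged, `b`, `e` are given here instead of
`T.exists_kum`).  Let `t ∈ S`, `P` above `t`, the product `∏ q ^ x q` a cube `d ^ 3` in the completion at `P`.  As there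
`B = ∏_(q ∈ S.erase t) q ^ (e t * x q + 2 * e q * x t)` is a cube modulo `t` (`t ∣ B - y ^ 3`), so its index is `0`
(`Pool.Agent.H62.Idx.mul`, `Idx.uniq`, `fermat`): `∑_(q ≠ t) (e t x q - e q x t) j t q = 0` in `ZMod 3`.
With `y q = x q * e q` (`(e q)² = 1` in `ZMod 3`) this is `∑_(q ≠ t) e q * e t * j t q * (y q - y t) = 0`, so by `hNS` `y` is constant on `S`:
`x q ≡ c e q`, and the product is a cube as at the end of the proof of `loc` (`b ^ c * ∏ q ^ k q`). -/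
def S_P3L : Prop := ∀ (F K : Type) [Field F] [NumberField F] [IsCyclotomicExtension {3} ℚ F] [Field K]
  [NumberField K] [Algebra F K] [IsGalois F K] [IsCyclic Gal(K/F)] (ζ : F) (hζ : IsPrimitiveRoot ζ 3) (n : ℕ)
  (S : Finset (𝓞 F)), Pool.Agent.H62.Ms F K ζ n S →
  ∀ (b : K) (e : 𝓞 F → ℕ), b ^ 3 = algebraMap F K ((∏ p ∈ S, p ^ e p : 𝓞 F) : F) → (∀ p ∈ S, ¬ 3 ∣ e p) →
  ∀ j : 𝓞 F → 𝓞 F → ℕ, (∀ t ∈ S, ∀ q ∈ S, q ≠ t → Idx hζ t q (j t q)) →
  (∀ y : 𝓞 F → ZMod 3, (∀ t ∈ S, ∑ q ∈ S.erase t, (e q : ZMod 3) * e t * j t q * (y q - y t) = 0) →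
    ∀ p ∈ S, ∀ q ∈ S, y p = y q) →
  Pool.Agent.H62.EX.LocalCubes F K S

end Pool.Agent.H62.SH
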