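import Pool.Agent.H62.EX.Goal
import Pool.Agent.H62.SH.Stm2

/-!
# The cubic field of a table
-/

set_option autoImplicit false
set_option linter.unusedSectionVars false
set_option linter.deprecated false

namespace Pool.Agent.H62.SH

open NumberField IsDedekindDomain
open Pool.Agent.Q7.LK (IsPow)
open Pool.Agent.H62.EX Pool.Agent.H62.Cft

section
variable {F L : Type} [Field F] [NumberField F] [IsCyclotomicExtension {3} ℚ F] [Field L]
  [NumberField L] [Algebra F L] {ζ : F}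

theorem val_lt {w : HeightOneSpectrum (𝓞 L)} {p : 𝓞 F} :
    w.valuation L (algebraMap F L (p : F)) < 1 ↔ algebraMap (𝓞 F) (𝓞 L) p ∈ w.asIdeal :=
  HeightOneSpectrum.valuation_lt_one_iff_mem w (algebraMap (𝓞 F) (𝓞 L) p)

theorem val_one {w : HeightOneSpectrum (𝓞 L)} {p : 𝓞 F} (h : algebraMap (𝓞 F) (𝓞 L) p ∉ w.asIdeal) :
    w.valuation L (algebraMap F L (p : F)) = 1 := by
  have h1 : w.valuation L (algebraMap F L (p : F)) ≤ 1 :=
    w.valuation_le_one (algebraMap (𝓞 F) (𝓞 L) p)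
  exact le_antisymm h1 (not_lt.1 fun h2 => h (val_lt.1 h2))

theorem coe_prod' (R : Finset (𝓞 F)) (m : 𝓞 F → ℕ) :
    algebraMap F L ((∏ p ∈ R, p ^ m p : 𝓞 F) : F) = ∏ p ∈ R, (algebraMap F L (p : F)) ^ m p := by
  have : ((∏ p ∈ R, p ^ m p : 𝓞 F) : F) = ∏ p ∈ R, (p : F) ^ m p := by
    show algebraMap (𝓞 F) F (∏ p ∈ R, p ^ m p) = _
    rw [map_prod]
    simp only [map_pow]
  rw [this, map_prod]
  simp only [map_pow]

/-- the valuation of the product -/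
theorem val_prod {S : Finset (𝓞 F)} (hS : ∀ p ∈ S, Prime p ∧ (3 : 𝓞 F) ∣ p - 1) {p0 : 𝓞 F} (hp0 : p0 ∈ S)
    {w : HeightOneSpectrum (𝓞 L)} (hw : algebraMap (𝓞 F) (𝓞 L) p0 ∈ w.asIdeal) (e : 𝓞 F → ℕ) :
    w.valuation L (algebraMap F L ((∏ p ∈ S, p ^ e p : 𝓞 F) : F)) =
      w.valuation L (algebraMap F L (p0 : F)) ^ e p0 := by
  rw [coe_prod', map_prod, Finset.prod_eq_single_of_mem p0 hp0, map_pow]
  intro q hq hne
  rw [map_pow, val_one, one_pow]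
  intro hqw
  apply hne
  let P : HeightOneSpectrum (𝓞 F) := w.under (𝓞 F)
  have h1 : p0 ∈ P.asIdeal := hw
  have h2 : q ∈ P.asIdeal := hqw
  have h3 := dvd_of_mem (hS p0 hp0).1 h1 h2
  exact eq_of_assoc (hS q hq).1 (hS p0 hp0).1 (hS q hq).2 (hS p0 hp0).2
    ((hS p0 hp0).1.irreducible.associated_of_dvd (hS q hq).1.irreducible h3).symm

/-- the product is not a cube if the valuation of the prime is `exp (-1)` -/
theorem not_cube_val {S : Finset (𝓞 F)} (hS : ∀ p ∈ S, Prime p ∧ (3 : 𝓞 F) ∣ p - 1) {p0 : 𝓞 F}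
    (hp0 : p0 ∈ S) {w : HeightOneSpectrum (𝓞 L)}
    (hw : w.valuation L (algebraMap F L (p0 : F)) = WithZero.exp (-1 : ℤ)) {e : 𝓞 F → ℕ}
    (he : ¬ 3 ∣ e p0) {b : L} (hb : b ^ 3 = algebraMap F L ((∏ p ∈ S, p ^ e p : 𝓞 F) : F)) : False := by
  have hwm : algebraMap (𝓞 F) (𝓞 L) p0 ∈ w.asIdeal := by
    rw [← val_lt, hw, ← WithZero.exp_zero, WithZero.exp_lt_exp]
    norm_num
  have h1 := congrArg (w.valuation L) hb
  rw [val_prod hS hp0 hwm, map_pow, hw] at h1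
  have hb0 : w.valuation L b ≠ 0 := by
    intro h0
    rw [h0, zero_pow three_ne_zero] at h1
    exact pow_ne_zero _ WithZero.exp_ne_zero h1.symm
  obtain ⟨m, hm⟩ : ∃ m : ℤ, w.valuation L b = WithZero.exp m := ⟨_, (WithZero.exp_log hb0).symm⟩
  rw [hm, ← WithZero.exp_nsmul, ← WithZero.exp_nsmul, WithZero.exp_inj] at h1
  simp only [nsmul_eq_mul, Nat.cast_ofNat] at h1
  omega

theorem not_isPow {S : Finset (𝓞 F)} (hS : ∀ p ∈ S, Prime p ∧ (3 : 𝓞 F) ∣ p - 1) {p0 : 𝓞 F}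
    (hp0 : p0 ∈ S) {e : 𝓞 F → ℕ} (he : ¬ 3 ∣ e p0) : ¬ IsPow 3 ((∏ p ∈ S, p ^ e p : 𝓞 F) : F) := by
  rintro ⟨x, hx⟩
  have hp := (hS p0 hp0).1
  let v : HeightOneSpectrum (𝓞 F) := ⟨Ideal.span {p0}, (Ideal.span_singleton_prime hp.ne_zero).2 hp, by
    rw [Ne, Ideal.span_singleton_eq_bot]
    exact hp.ne_zero⟩
  refine not_cube_val (L := F) hS hp0 (w := v) ?_ he (b := x) (by rw [← hx]; rfl)
  show v.valuation F (algebraMap (𝓞 F) F p0) = _
  rw [HeightOneSpectrum.valuation_of_algebraMap]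
  exact HeightOneSpectrum.intValuation_singleton v hp.ne_zero rfl

/-- an unramified prime: the valuation of a prime element -/
theorem val_unr {w : HeightOneSpectrum (𝓞 L)} (h : Algebra.IsUnramifiedAt (𝓞 F) w.asIdeal) {p : 𝓞 F}
    (hp : Prime p) (hw : algebraMap (𝓞 F) (𝓞 L) p ∈ w.asIdeal) :
    w.valuation L (algebraMap F L (p : F)) = WithZero.exp (-1 : ℤ) := by
  have h1 := not_le_sq h
  have h2 : (w.under (𝓞 F)).asIdeal = Ideal.span {p} := span_of_prime hp hw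
  rw [h2, Ideal.map_span, Set.image_singleton, Ideal.span_singleton_le_iff_mem] at h1
  have h3 : w.valuation L (algebraMap F L (p : F)) = w.intValuation (algebraMap (𝓞 F) (𝓞 L) p) :=
    HeightOneSpectrum.valuation_of_algebraMap w (algebraMap (𝓞 F) (𝓞 L) p)
  rw [h3]
  apply le_antisymm
  · have := (HeightOneSpectrum.intValuation_le_pow_iff_mem w (algebraMap (𝓞 F) (𝓞 L) p) 1).2
      (by rwa [pow_one])
    exact_mod_cast this
  · by_contra hcon
    rw [not_le] at hcon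
    apply h1
    rw [← HeightOneSpectrum.intValuation_le_pow_iff_mem]
    have hp0 : w.intValuation (algebraMap (𝓞 F) (𝓞 L) p) ≠ 0 := by
      rw [← h3]
      rw [Ne, map_eq_zero, map_eq_zero]
      exact fun h => hp.ne_zero (by exact_mod_cast h)
    obtain ⟨m, hm⟩ : ∃ m : ℤ, w.intValuation (algebraMap (𝓞 F) (𝓞 L) p) = WithZero.exp m :=
      ⟨_, (WithZero.exp_log hp0).symm⟩
    rw [hm] at hcon ⊢
    rw [WithZero.exp_lt_exp] at hcon
    rw [WithZero.exp_le_exp]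
    push_cast
    omega

end

section
variable {F K : Type} [Field F] [NumberField F] [IsCyclotomicExtension {3} ℚ F] [Field K]
  [NumberField K] [Algebra F K] {ζ : F}

/-- **The field of a table.** -/
theorem kum_field (hζ : IsPrimitiveRoot ζ 3) {S : Finset (𝓞 F)} {p0 : 𝓞 F} (hp0 : p0 ∈ S)
    (hS : ∀ p ∈ S, Prime p ∧ 3 * (2 * hζ.toInteger + 1) ∣ p - 1) {e : 𝓞 F → ℕ}
    (he : ∀ p ∈ S, ¬ 3 ∣ e p) (hK : Module.finrank F K = 3) {b : K}
    (hb : b ^ 3 = algebraMap F K ((∏ p ∈ S, p ^ e p : 𝓞 F) : F)) {t : 𝓞 F → ℕ}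
    (ht : ∀ p ∈ S, Idx hζ p (2 * hζ.toInteger + 1) (t p)) (h1 : ¬ 3 ∣ ∑ p ∈ S, e p * t p) :
    ∃ _ : IsGalois F K, IsCyclic Gal(K/F) ∧
      (∀ w : HeightOneSpectrum (𝓞 K), (∀ π ∈ S, algebraMap (𝓞 F) (𝓞 K) π ∉ w.asIdeal) →
        Algebra.IsUnramifiedAt (𝓞 F) w.asIdeal) ∧
      (∀ π ∈ S, ∀ v : HeightOneSpectrum (𝓞 K), algebraMap (𝓞 F) (𝓞 K) π ∈ v.asIdeal →
        ∀ (g : Gal(K/F)) (x : 𝓞 K), g • x - x ∈ v.asIdeal) ∧
      (∀ v w : HeightOneSpectrum (𝓞 K), 3 ∈ v.asIdeal → 3 ∈ w.asIdeal → v = w) := by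
  classical
  have hS3 : ∀ p ∈ S, Prime p ∧ (3 : 𝓞 F) ∣ p - 1 := fun p hp =>
    ⟨(hS p hp).1, (dvd_mul_right _ _).trans (hS p hp).2⟩
  have hn := not_isPow hS3 hp0 (he p0 hp0)
  have hgal := Pool.Agent.Q22.LK.galois Nat.prime_three hζ hK hb hn
  have hcyc : IsCyclic Gal(K/F) := Pool.Agent.Q22.LK.cyc Nat.prime_three hζ hK hb hn
  have hcard : Nat.card Gal(K/F) = 3 := by rw [IsGalois.card_aut_eq_finrank, hK]
  -- unramified
  obtain ⟨q, hq⟩ := three_prod (fun p hp => (hS p hp).2) e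
  have hunr : ∀ w : HeightOneSpectrum (𝓞 K), (∀ π ∈ S, algebraMap (𝓞 F) (𝓞 K) π ∉ w.asIdeal) →
      Algebra.IsUnramifiedAt (𝓞 F) w.asIdeal := by
    intro w hw
    refine kum_unr hζ hq hK hb hn w fun h => ?_
    rw [map_prod] at h
    have := w.isPrime
    obtain ⟨p, hp, hpw⟩ := Ideal.IsPrime.prod_mem_iff.1 h
    rw [map_pow] at hpw
    exact hw p hp (w.isPrime.mem_of_pow_mem _ hpw)
  -- totally ramified
  have htot : ∀ π ∈ S, ∀ v : HeightOneSpectrum (𝓞 K), algebraMap (𝓞 F) (𝓞 K) π ∈ v.asIdeal →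
      ∀ (g : Gal(K/F)) (x : 𝓞 K), g • x - x ∈ v.asIdeal := by
    intro p hp v hv
    by_contra hcon
    have hunr' : Algebra.IsUnramifiedAt (𝓞 F) v.asIdeal := by
      refine Pool.Agent.R430.unram_at fun σ hσ => ?_
      by_contra hσ1
      apply hcon
      intro g x
      let I : Subgroup Gal(K/F) := Ideal.inertia Gal(K/F) v.asIdeal
      have hmem : ∀ g : Gal(K/F), g ∈ I ↔ ∀ x : 𝓞 K, g • x - x ∈ v.asIdeal := fun g =>
        AddSubgroup.mem_inertia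
      have h2 := Pool.Agent.Q22.LK.gen Nat.prime_three hζ hK hb hn hσ1 g
      have h3 : Subgroup.zpowers σ ≤ I := by
        rw [Subgroup.zpowers_le]
        exact (hmem σ).2 hσ
      exact (hmem g).1 (h3 h2) x
    exact not_cube_val hS3 hp (val_unr hunr' (hS p hp).1 hv) (he p hp) hb
  refine ⟨hgal, hcyc, hunr, htot, ?_⟩
  -- the prime above three
  obtain ⟨θ, hθd⟩ : ∃ θ : 𝓞 F, θ = 2 * hζ.toInteger + 1 := ⟨_, rfl⟩
  have hθ : θ ^ 2 = -3 := by rw [hθd]; linear_combination 4 * zI hζ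
  rw [← hθd] at ht
  obtain ⟨c, hcdef⟩ : ∃ c : 𝓞 F, c = ∏ p ∈ S, p := ⟨_, rfl⟩
  have hc0 : c ≠ 0 := hcdef ▸ Finset.prod_ne_zero_iff.2 fun p hp => (hS3 p hp).1.ne_zero
  have hc3 : (3 : 𝓞 F) ∣ c - 1 := hcdef ▸ Pool.Agent.H62.three_dvd_prod hS3
  obtain ⟨A, hA⟩ := art_of_cyclic (K := K) (n := 1) (by rw [hK, pow_one]) hc0 hc3 (fun w hw =>
    hunr w fun π hπ h => hw (by
      rw [hcdef, map_prod]
      exact w.asIdeal.mem_of_dvd (Finset.dvd_prod_of_mem _ hπ) h))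
  have hcv : ∀ v : HeightOneSpectrum (𝓞 F), c ∈ v.asIdeal ↔ ∃ p ∈ S, p ∈ v.asIdeal := fun v => by
    rw [hcdef]
    exact mem_c_iff
  obtain ⟨uθ, huθ⟩ := isUnit_mk (a := θ) hc0 (fun v hv => by
    obtain ⟨p, hp, hpv⟩ := (hcv v).1 hv
    exact theta_not_mem hθ (hS3 p hp).2 hpv)
  have hact := art_idx' hζ hS hcdef hA hb (x := θ) (fun p hp hd => by
    have hpi : (Ideal.span {p}).IsPrime := (Ideal.span_singleton_prime (hS3 p hp).1.ne_zero).2 (hS3 p hp).1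
    let w : HeightOneSpectrum (𝓞 F) := ⟨Ideal.span {p}, hpi, by
      rw [Ne, Ideal.span_singleton_eq_bot]
      exact (hS3 p hp).1.ne_zero⟩
    exact theta_not_mem hθ (hS3 p hp).2 (v := w) (Ideal.mem_span_singleton_self p)
      (Ideal.mem_span_singleton.2 hd)) huθ ht
  have hb0 : b ≠ 0 := by
    rintro rfl
    apply hn
    refine ⟨0, ?_⟩
    apply (algebraMap F K).injective
    rw [← hb, map_pow, map_zero]
  have hA1 : A uθ ≠ 1 := by
    intro h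
    rw [h] at hact
    have h2 : algebraMap F K (ζ ^ (∑ p ∈ S, e p * t p)) = 1 := by
      have h3 : (1 : K) * b = algebraMap F K (ζ ^ (∑ p ∈ S, e p * t p)) * b := by
        rw [one_mul]
        exact hact
      exact (mul_right_cancel₀ hb0 h3).symm
    rw [← map_one (algebraMap F K)] at h2
    exact h1 ((hζ.pow_eq_one_iff_dvd _).1 ((algebraMap F K).injective h2))
  have hθv : ∀ v : HeightOneSpectrum (𝓞 K), (3 : 𝓞 K) ∈ v.asIdeal →
      algebraMap (𝓞 F) (𝓞 K) θ ∈ v.asIdeal := by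
    intro v hv
    refine v.isPrime.mem_of_pow_mem 2 ?_
    rw [← map_pow, hθ, map_neg, map_ofNat]
    exact v.asIdeal.neg_mem hv
  have hunder : ∀ v : HeightOneSpectrum (𝓞 K), (3 : 𝓞 K) ∈ v.asIdeal →
      (v.under (𝓞 F)).asIdeal = Ideal.span {θ} := fun v hv => by
    have h1 : θ ∈ (v.under (𝓞 F)).asIdeal := hθv v hv
    exact span_of_prime (theta_prime hθ) h1
  intro v w hv hw
  refine one_above (q := Nat.card (𝓞 F ⧸ Ideal.span {θ})) (g := A uθ) ?_ ?_ ?_ ?_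
  · apply HeightOneSpectrum.ext
    rw [hunder v hv, hunder w hw]
  · have : Finite (𝓞 F ⧸ Ideal.span {θ}) := (card_unit_quot (theta_prime hθ)).1
    have : Nonempty (𝓞 F ⧸ Ideal.span {θ}) := ⟨0⟩
    exact Nat.card_pos.ne'
  · exact hA.frob θ (theta_prime hθ) uθ huθ v (hθv v hv)
  · intro g
    exact Pool.Agent.Q22.LK.gen Nat.prime_three hζ hK hb hn hA1 g

end

end Pool.Agent.H62.SH
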