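import Pool.Agent.H62.EX.A2
import Pool.Agent.H62.SH.Kf
import Pool.Agent.H40.EX.A1
import Pool.Graph.R_pool_sql_team_seeded_3997aac3.Q277.LK.Bas

/-!
# The symbols
-/

set_option autoImplicit false
set_option linter.unusedSectionVars false
set_option linter.deprecated false

namespace Pool.Agent.H62.SH

open NumberField IsDedekindDomain
open Pool.Agent.Q7.LK (IsPow Sy sy vl Dp mon)
open Pool.Agent.Q283.LQ (Sm Box Nest)
open Pool.Agent.H62.EX Pool.Agent.H62.Cft

section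
variable {F : Type} [Field F] [NumberField F] [IsCyclotomicExtension {3} ℚ F] {ζ : F}

theorem dp_iff {v : HeightOneSpectrum (𝓞 F)} : Dp 3 v ↔ (3 : 𝓞 F) ∈ v.asIdeal := by
  unfold Dp
  norm_num

theorem sym3 (v : HeightOneSpectrum (𝓞 F)) : Sm 3 v ↔ (2 : 𝓞 F) ∈ v.asIdeal ∨ (3 : 𝓞 F) ∈ v.asIdeal := by
  unfold Sm
  constructor
  · rintro ⟨l, h1, h2, h3⟩
    have h4 := h1.two_le
    interval_cases l
    · exact Or.inl (by exact_mod_cast h3)
    · exact Or.inr (by exact_mod_cast h3)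
  · rintro (h | h)
    · exact ⟨2, Nat.prime_two, by norm_num, by exact_mod_cast h⟩
    · exact ⟨3, Nat.prime_three, le_rfl, by exact_mod_cast h⟩

theorem vl_unit {v : HeightOneSpectrum (𝓞 F)} {x : 𝓞 F} (hx : x ∉ v.asIdeal) : vl 3 v (x : F) = 0 := by
  unfold vl
  have h1 : v.valuation F (x : F) = 1 := by
    have h2 : v.valuation F (x : F) ≤ 1 := v.valuation_le_one x
    exact le_antisymm h2 (not_lt.1 fun h3 => hx ((HeightOneSpectrum.valuation_lt_one_iff_mem v x).1 h3))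
  rw [h1]
  simp

/-- the symbol is the cubic residue index -/
theorem idx_sy (hζ : IsPrimitiveRoot ζ 3) {v : HeightOneSpectrum (𝓞 F)} {p : 𝓞 F} (hp : Prime p)
    (h3 : (3 : 𝓞 F) ∉ v.asIdeal) (hv : p ∈ v.asIdeal) {x : 𝓞 F} (hx : x ∉ v.asIdeal) :
    Idx hζ p x (sy 3 ζ v (x : F)).val := by
  have : Fact (Nat.Prime 3) := ⟨Nat.prime_three⟩
  have hsp := span_of_prime hp hv
  have hp3 : ¬ p ∣ 3 := fun h => h3 (v.asIdeal.mem_of_dvd h hv)
  have hpx : ¬ p ∣ x := fun h => hx (v.asIdeal.mem_of_dvd h hv)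
  obtain ⟨j, -, hj⟩ := exists_idx hζ hp hp3 hpx
  have hB := (Pool.Agent.Q277.LK.bas 3 F v).2.2.2.2.2.2 (fun h => h3 (dp_iff.1 h)) ζ hζ
  have hx0 : (x : F) ≠ 0 := by
    intro h
    apply hx
    have h' : x = 0 := by exact_mod_cast h
    rw [h']
    exact v.asIdeal.zero_mem
  have hval : ((j : ZMod 3)).val = j % 3 := ZMod.val_natCast 3 j
  have hpow : hζ.toInteger ^ j = hζ.toInteger ^ (j % 3) := by
    conv_lhs => rw [← Nat.div_add_mod j 3, pow_add, pow_mul, z_cube hζ, one_pow, one_mul]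
  have hS : Sy 3 ζ v (x : F) (j : ZMod 3) := by
    refine ⟨1, ?_, ?_⟩
    · rw [one_pow, mul_one]
      have h2 : v.valuation F (x : F) ≤ 1 := v.valuation_le_one x
      exact le_antisymm h2 (not_lt.1 fun h3 => hx ((HeightOneSpectrum.valuation_lt_one_iff_mem v x).1 h3))
    · rw [one_pow, mul_one, hval, hsp, ← Nm_eq]
      have h1 : ((x ^ ((Nm p - 1) / 3) - hζ.toInteger ^ j : 𝓞 F) : F) =
          (x : F) ^ ((Nm p - 1) / 3) - ζ ^ (j % 3) := by
        rw [hpow]
        show algebraMap (𝓞 F) F _ = _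
        rw [map_sub, map_pow, map_pow]
        rfl
      rw [← h1]
      refine (HeightOneSpectrum.valuation_lt_one_iff_mem v _).2 ?_
      exact v.asIdeal.mem_of_dvd hj hv
  have h5 := (hB.2.1 (x : F) hx0 (vl_unit hx) _).1 hS
  rw [← h5, hval]
  unfold Idx
  rw [← hpow]
  exact hj

/-- the symbol of `ζ` -/
theorem sy_zeta (hζ : IsPrimitiveRoot ζ 3) {v : HeightOneSpectrum (𝓞 F)} (h3 : (3 : 𝓞 F) ∉ v.asIdeal) :
    sy 3 ζ v ζ = (((Ideal.absNorm v.asIdeal - 1) / 3 : ℕ) : ZMod 3) := by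
  have : Fact (Nat.Prime 3) := ⟨Nat.prime_three⟩
  have hB := (Pool.Agent.Q277.LK.bas 3 F v).2.2.2.2.2.2 (fun h => h3 (dp_iff.1 h)) ζ hζ
  have hzu : hζ.toInteger ∉ v.asIdeal := fun h =>
    v.isPrime.ne_top (Ideal.eq_top_of_isUnit_mem _ h (z_unit hζ))
  have hc : ((hζ.toInteger : 𝓞 F) : F) = ζ := rfl
  have h1 := hB.2.1 ζ (hζ.ne_zero three_ne_zero) (by rw [← hc]; exact vl_unit hzu)
    (((Ideal.absNorm v.asIdeal - 1) / 3 : ℕ) : ZMod 3)
  refine (h1.1 ⟨1, ?_, ?_⟩).symm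
  · rw [one_pow, mul_one, ← hc]
    have h2 : v.valuation F ((hζ.toInteger : 𝓞 F) : F) ≤ 1 := v.valuation_le_one _
    exact le_antisymm h2 (not_lt.1 fun h3 => hzu ((HeightOneSpectrum.valuation_lt_one_iff_mem v _).1 h3))
  · rw [one_pow, mul_one, ZMod.val_natCast]
    have h4 : ζ ^ ((Ideal.absNorm v.asIdeal - 1) / 3) = ζ ^ ((Ideal.absNorm v.asIdeal - 1) / 3 % 3) := by
      conv_lhs => rw [← Nat.div_add_mod ((Ideal.absNorm v.asIdeal - 1) / 3) 3, pow_add, pow_mul,
        hζ.pow_eq_one, one_pow, one_mul]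
    rw [← h4, sub_self, map_zero]
    exact zero_lt_one

theorem sy_zeta_iff (hζ : IsPrimitiveRoot ζ 3) {v : HeightOneSpectrum (𝓞 F)} (h3 : (3 : 𝓞 F) ∉ v.asIdeal) :
    sy 3 ζ v ζ = 0 ↔ 9 ∣ Ideal.absNorm v.asIdeal - 1 := by
  have : Fact (Nat.Prime 3) := ⟨Nat.prime_three⟩
  have hB := (Pool.Agent.Q277.LK.bas 3 F v).2.2.2.2.2.2 (fun h => h3 (dp_iff.1 h)) ζ hζ
  rw [sy_zeta hζ h3, ZMod.natCast_eq_zero_iff]
  have := hB.1
  omega

/-- every prime has a generator, a normalised one if the norm is one modulo nine -/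
theorem exists_norm_gen (hζ : IsPrimitiveRoot ζ 3) (v : HeightOneSpectrum (𝓞 F)) :
    ∃ a : 𝓞 F, v.asIdeal = Ideal.span {a} ∧ Prime a ∧
      (9 ∣ Ideal.absNorm v.asIdeal - 1 → 3 * (2 * hζ.toInteger + 1) ∣ a - 1) := by
  have hpid := IsCyclotomicExtension.Rat.three_pid F
  obtain ⟨p, hp⟩ := (IsPrincipalIdealRing.principal v.asIdeal).principal
  have hp' : v.asIdeal = Ideal.span {p} := hp
  have hp0 : p ≠ 0 := by
    rintro rfl
    exact v.ne_bot (by rw [hp', Ideal.span_singleton_eq_bot])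
  have hpp : Prime p := (Ideal.span_singleton_prime hp0).1 (hp' ▸ v.isPrime)
  have hpos : 0 < Ideal.absNorm v.asIdeal := by
    rw [Nat.pos_iff_ne_zero, Ne, Ideal.absNorm_eq_zero_iff]
    exact v.ne_bot
  by_cases h9 : 9 ∣ Ideal.absNorm v.asIdeal - 1
  · obtain ⟨u, hu, h3⟩ := Pool.Agent.H40.EX.exists_primary hζ p
      (((by norm_num : (3 : ℕ) ∣ 9)).trans (hp' ▸ h9)) (hp' ▸ hpos)
    have hass : Associated p (u * p) := by
      obtain ⟨u, rfl⟩ := hu
      exact ⟨u, mul_comm _ _⟩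
    have hsp : Ideal.span {u * p} = Ideal.span {p} :=
      Ideal.span_singleton_eq_span_singleton.2 hass.symm
    refine ⟨u * p, by rw [hp', hsp], (hass.prime_iff).1 hpp, fun _ => ?_⟩
    refine Pool.Agent.H40.EX.dvd_of_norm hζ (by linear_combination 4 * zI hζ) h3 ?_ ?_
    · rw [hsp]
      exact hp' ▸ h9
    · rw [hsp]
      exact hp' ▸ hpos
  · exact ⟨p, hp', hpp, fun h => absurd h h9⟩

open Classical in
/-- **The basis.** -/
theorem gd (hζ : IsPrimitiveRoot ζ 3) {g : HeightOneSpectrum (𝓞 F) → 𝓞 F}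
    (hg : ∀ v, v.asIdeal = Ideal.span {g v} ∧ Prime (g v)) :
    Gd 3 3 2 ![ζ, 2 * ζ + 1] (fun v => ((g v : 𝓞 F) : F)) := by
  have hθ : (2 * hζ.toInteger + 1 : 𝓞 F) ^ 2 = -3 := by linear_combination 4 * zI hζ
  have hθc : ((2 * hζ.toInteger + 1 : 𝓞 F) : F) = 2 * ζ + 1 := by
    show algebraMap (𝓞 F) F _ = _
    rw [map_add, map_mul, map_one, map_ofNat]
    rfl
  have hc : ((hζ.toInteger : 𝓞 F) : F) = ζ := rfl
  have hθp := theta_prime hθ
  have hzn : ∀ v : HeightOneSpectrum (𝓞 F), hζ.toInteger ∉ v.asIdeal := fun v h =>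
    v.isPrime.ne_top (Ideal.eq_top_of_isUnit_mem _ h (z_unit hζ))
  have hval : ∀ (v : HeightOneSpectrum (𝓞 F)) {x : 𝓞 F}, v.asIdeal = Ideal.span {x} → x ≠ 0 →
      v.valuation F (x : F) = WithZero.exp (-1 : ℤ) := by
    intro v x hx hx0
    have h3 : v.valuation F (x : F) = v.intValuation x := HeightOneSpectrum.valuation_of_algebraMap v x
    rw [h3]
    exact HeightOneSpectrum.intValuation_singleton v hx0 hx
  have e0 : (![ζ, 2 * ζ + 1] : Fin 2 → F) 0 = ζ := Matrix.cons_val_zero _ _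
  have e1 : (![ζ, 2 * ζ + 1] : Fin 2 → F) 1 = 2 * ζ + 1 := Matrix.cons_val_one _ _
  refine ⟨?_, ?_, ?_, ?_⟩
  · rw [Fin.forall_fin_two, e0, e1]
    refine ⟨hζ.ne_zero three_ne_zero, ?_⟩
    rw [← hθc]
    intro h
    exact hθp.ne_zero (by exact_mod_cast h)
  · rw [Fin.forall_fin_two, e0, e1]
    constructor
    · intro v hv
      have h1 := vl_unit (hzn v)
      rwa [hc] at h1
    · intro v hv
      rw [sym3, not_or] at hv
      rw [← hθc]
      refine vl_unit fun h => hv.2 ?_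
      have h1 : -((2 * hζ.toInteger + 1) ^ 2) ∈ v.asIdeal :=
        v.asIdeal.neg_mem (v.asIdeal.pow_mem_of_mem h 2 (by norm_num))
      rwa [hθ, neg_neg] at h1
  · intro c hc1
    obtain ⟨x, hx⟩ := hc1
    unfold mon at hx
    rw [Fin.prod_univ_two, e0, e1] at hx
    have hx' : ζ ^ (c 0).val * (2 * ζ + 1) ^ (c 1).val = x ^ 3 := hx
    -- the exponent of `θ`
    have hc1 : (c 1).val = 0 := by
      let v : HeightOneSpectrum (𝓞 F) := ⟨Ideal.span {2 * hζ.toInteger + 1},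
        (Ideal.span_singleton_prime hθp.ne_zero).2 hθp, by
        rw [Ne, Ideal.span_singleton_eq_bot]
        exact hθp.ne_zero⟩
      have h1 := congrArg (v.valuation F) hx'
      have hvz : v.valuation F ζ = 1 := by
        rw [← hc]
        have h2 : v.valuation F ((hζ.toInteger : 𝓞 F) : F) ≤ 1 := v.valuation_le_one _
        exact le_antisymm h2 (not_lt.1 fun h3 => hzn v ((HeightOneSpectrum.valuation_lt_one_iff_mem v _).1 h3))
      rw [map_mul, map_pow, map_pow, map_pow, hvz, one_pow, one_mul, ← hθc,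
        hval v rfl hθp.ne_zero] at h1
      have hb0 : v.valuation F x ≠ 0 := by
        intro h0
        rw [h0, zero_pow three_ne_zero] at h1
        exact pow_ne_zero _ WithZero.exp_ne_zero h1
      obtain ⟨m, hm⟩ : ∃ m : ℤ, v.valuation F x = WithZero.exp m := ⟨_, (WithZero.exp_log hb0).symm⟩
      rw [hm, ← WithZero.exp_nsmul, ← WithZero.exp_nsmul, WithZero.exp_inj] at h1
      simp only [nsmul_eq_mul, Nat.cast_ofNat] at h1
      have h2 : (c 1).val < 3 := ZMod.val_lt (c 1)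
      omega
    rw [hc1, pow_zero, mul_one] at hx'
    have hint : IsIntegral ℤ x := by
      apply IsIntegral.of_pow (n := 3) (by norm_num)
      rw [← hx', ← hc]
      exact (RingOfIntegers.isIntegral_coe hζ.toInteger).pow _
    set xO : 𝓞 F := ⟨x, hint⟩ with hxO
    have hxO3 : xO ^ 3 = hζ.toInteger ^ (c 0).val := by
      apply RingOfIntegers.ext
      show (xO : F) ^ 3 = algebraMap (𝓞 F) F (hζ.toInteger ^ (c 0).val)
      rw [map_pow]
      exact hx'.symm
    have hxu : IsUnit xO := by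
      refine (isUnit_pow_iff three_ne_zero).1 ?_
      rw [hxO3]
      exact (z_unit hζ).pow _
    have h6 := unit_six hxu
    have h9 : hζ.toInteger ^ (c 0).val = 1 := by
      have h7 : xO ^ 9 = 1 := by
        rw [show 9 = 3 * 3 from rfl, pow_mul, hxO3, ← pow_mul, mul_comm, pow_mul, z_cube hζ, one_pow]
      rw [← hxO3]
      have h8 : xO ^ 9 = xO ^ 6 * xO ^ 3 := by ring
      rw [h7, h6, one_mul] at h8
      exact h8.symm
    have hc0 : (c 0).val = 0 := by
      have h10 := (hζ.toInteger_isPrimitiveRoot.pow_eq_one_iff_dvd _).1 h9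
      have h2 : (c 0).val < 3 := ZMod.val_lt (c 0)
      omega
    rw [funext_iff, Fin.forall_fin_two]
    exact ⟨(ZMod.val_eq_zero _).1 hc0, (ZMod.val_eq_zero _).1 hc1⟩
  · intro q _
    have hq0 : ((g q : 𝓞 F) : F) ≠ 0 := fun h => (hg q).2.ne_zero (by exact_mod_cast h)
    refine ⟨hq0, fun v _ => ?_⟩
    by_cases hvq : v = q
    · rw [if_pos hvq]
      subst hvq
      unfold vl
      rw [hval v (hg v).1 (hg v).2.ne_zero, WithZero.log_exp]
      simp
    · rw [if_neg hvq]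
      refine vl_unit fun h => hvq ?_
      apply HeightOneSpectrum.ext
      rw [span_of_prime (hg q).2 h, (hg q).1]

end

end Pool.Agent.H62.SH
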