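import Pool.Agent.H62.SH.Stm3
import Pool.Graph.R_pool_sql_team_seeded_3997aac3.Q265.LK.CHEB
import Pool.Graph.R_pool_sql_team_seeded_3997aac3.Q277.LK.Bas

/-!
# Chebotarev's theorem for the cubic residue symbols and the primes with `N(v) ≡ 1` modulo `3 ^ (n + 1)`
-/

set_option autoImplicit false
set_option linter.unusedSectionVars false
set_option linter.deprecated false

namespace Pool.Agent.H62.SH

open NumberField IsDedekindDomain Filter Topology
open Pool.Agent.Q7.LK (sy mon IsPow vl Tab Tb S_BAS Dp)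
open Pool.Agent.Q283.LQ (Sm Box Nest)
open Pool.Agent.W401.Cheb
open Pool.Agent.Q129.LQ (chebK fin_mem fin_le dens_eq tend_all)
open Pool.Agent.Q265.LK (sg ch ch_spec ch_zero_iff root_ne ch_hom ker_open ch_surj sym_frob)

section
variable {F : Type} [Field F] [NumberField F]

/-- roots of unity are different modulo the primes prime to their order -/
theorem root_mem {R : Type} [CommRing R] [IsDomain R] {m : ℕ} {ν : R} (h1 : ν ^ m = 1) {w : Ideal R}
    (hmw : (m : R) ∉ w) (ha : ν - 1 ∈ w) : ν = 1 := by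
  by_contra hne
  apply hmw
  have h2 : ∑ i ∈ Finset.range m, ν ^ i = 0 := by
    have h3 := mul_geom_sum ν m
    rw [h1, sub_self] at h3
    exact (mul_eq_zero.1 h3).resolve_left (sub_ne_zero.2 hne)
  have h3 : ν - 1 ∣ (∑ i ∈ Finset.range m, ν ^ i) - m := by
    have h4 : (∑ i ∈ Finset.range m, ν ^ i) - m = ∑ i ∈ Finset.range m, (ν ^ i - 1) := by
      rw [Finset.sum_sub_distrib]
      simp
    rw [h4]
    refine Finset.dvd_sum fun i _ => ?_
    simpa using sub_dvd_pow_sub_pow ν 1 i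
  rw [h2, zero_sub, dvd_neg] at h3
  exact w.mem_of_dvd h3 ha

/-- a Frobenius element fixes the roots of unity of order `m` iff `m` divides `N(v) - 1` -/
theorem frob_root {m : ℕ} (hm : m ≠ 0) {η : AlgebraicClosure F} (hη : IsPrimitiveRoot η m)
    {v : HeightOneSpectrum (𝓞 F)} (hv : (m : 𝓞 F) ∉ v.asIdeal) {σ : GK F} (hσ : IsFrob v σ) :
    σ η = η ↔ m ∣ Ideal.absNorm v.asIdeal - 1 := by
  obtain ⟨Q, hQm, hQv, hQ⟩ := hσ
  obtain ⟨N, hN⟩ : ∃ N, N = Ideal.absNorm v.asIdeal := ⟨_, rfl⟩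
  rw [← hN] at hQ ⊢
  have hN1 : 1 ≤ N := by
    rw [hN]
    exact Nat.one_le_iff_ne_zero.2 (by
      rw [Ne, Ideal.absNorm_eq_zero_iff]
      exact v.ne_bot)
  have hti : IsIntegral ℤ η := hη.isIntegral (Nat.pos_of_ne_zero hm)
  let T : 𝓞 (AlgebraicClosure F) := ⟨η, hti⟩
  have hTm : T ^ m = 1 := by
    apply RingOfIntegers.ext
    exact hη.pow_eq_one
  have hTu : IsUnit T := IsUnit.of_pow_eq_one hTm hm
  have hmQ : (m : 𝓞 (AlgebraicClosure F)) ∉ Q := by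
    intro h
    apply hv
    rw [← hQv, Ideal.mem_comap, map_natCast]
    exact h
  have hTf := hQ T
  have key : σ • T = T ^ N := by
    -- `σ T = T ^ i`
    have h1 : (σ • T) ^ m = 1 := by
      rw [← smul_pow', hTm, smul_one]
    obtain ⟨u, hu⟩ := hTu
    have h2 : (σ • T) * (↑u⁻¹ : 𝓞 (AlgebraicClosure F)) ^ N - 1 ∈ Q := by
      have h3 := Q.mul_mem_right ((↑u⁻¹ : 𝓞 (AlgebraicClosure F)) ^ N) hTf
      have h4 : (σ • T - T ^ N) * (↑u⁻¹ : 𝓞 (AlgebraicClosure F)) ^ N =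
          (σ • T) * (↑u⁻¹ : 𝓞 (AlgebraicClosure F)) ^ N - 1 := by
        rw [sub_mul, ← mul_pow, ← hu, Units.mul_inv, one_pow]
      rwa [h4] at h3
    have h5 : ((σ • T) * (↑u⁻¹ : 𝓞 (AlgebraicClosure F)) ^ N) ^ m = 1 := by
      have h6 : (↑u⁻¹ : 𝓞 (AlgebraicClosure F)) ^ m = 1 := by
        have h7 : (T * (↑u⁻¹ : 𝓞 (AlgebraicClosure F))) ^ m = 1 := by
          rw [← hu, Units.mul_inv, one_pow]
        rwa [mul_pow, hTm, one_mul] at h7
      rw [mul_pow, h1, one_mul, ← pow_mul, mul_comm, pow_mul, h6, one_pow]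
    have h8 := root_mem h5 hmQ h2
    calc σ • T = (σ • T) * (↑u⁻¹ : 𝓞 (AlgebraicClosure F)) ^ N * T ^ N := by
          rw [mul_assoc, ← mul_pow, ← hu, Units.inv_mul, one_pow, mul_one]
      _ = T ^ N := by rw [h8, one_mul]
  have hση : σ η = η ^ N := congrArg (fun x : 𝓞 (AlgebraicClosure F) => (x : AlgebraicClosure F)) key
  have hη0 : η ≠ 0 := hη.ne_zero hm
  rw [hση]
  have e : η ^ N = η ^ (N - 1) * η := by
    rw [← pow_succ]
    congr 1
    omega
  rw [e, ← hη.pow_eq_one_iff_dvd]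
  constructor
  · intro h
    exact mul_right_cancel₀ hη0 (h.trans (one_mul η).symm)
  · intro h
    rw [h, one_mul]

end

theorem mult3 (x : Multiplicative (ZMod 3)) : x ^ 3 = 1 := by
  revert x
  decide

theorem add3 (y : ZMod 3) : 3 • y = 0 := by
  revert y
  decide

/-- **JOB N1** -/
theorem chn : S_CHN := by
  classical
  intro F _ _ _ ζ hζ n m hn a ha hi e
  have : Fact (Nat.Prime 3) := ⟨Nat.prime_three⟩
  have hBAS : S_BAS := Pool.Agent.Q277.LK.bas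
  have hM0 : 3 ^ (n + 1) ≠ 0 := by positivity
  have : NeZero (3 ^ (n + 1)) := ⟨hM0⟩
  -- the roots
  have hex : ∀ i, ∃ s : AlgebraicClosure F, s ^ 3 = algebraMap F (AlgebraicClosure F) (a i) := by
    intro i
    exact IsAlgClosed.exists_pow_nat_eq _ (by norm_num)
  choose s hs using hex
  obtain ⟨s0, hs0⟩ : ∃ s0 : AlgebraicClosure F, s0 ^ 3 = algebraMap F (AlgebraicClosure F) ζ :=
    IsAlgClosed.exists_pow_nat_eq _ (by norm_num)
  have hζ0 : ζ ≠ 0 := hζ.ne_zero three_ne_zero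
  have ha' : ∀ i, (Fin.cons ζ a : Fin (m + 1) → F) i ≠ 0 := by
    intro i
    refine Fin.cases ?_ (fun j => ?_) i
    · rw [Fin.cons_zero]
      exact hζ0
    · rw [Fin.cons_succ]
      exact ha j
  have hs' : ∀ i, (Fin.cons s0 s : Fin (m + 1) → AlgebraicClosure F) i ^ 3 =
      algebraMap F (AlgebraicClosure F) ((Fin.cons ζ a : Fin (m + 1) → F) i) := by
    intro i
    refine Fin.cases ?_ (fun j => ?_) i
    · rw [Fin.cons_zero, Fin.cons_zero]
      exact hs0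
    · rw [Fin.cons_succ, Fin.cons_succ]
      exact hs j
  obtain ⟨Φ', hΦ'⟩ := ch_hom ha' hs' hζ
  have hsurj' := ch_surj ha' hs' hζ hi Φ' hΦ'
  obtain ⟨Φ, hΦ⟩ := ch_hom ha hs hζ
  have hopen := ker_open ha hs hζ Φ hΦ
  obtain ⟨S, hS, hSv⟩ := sym_frob hBAS hζ ha hs
  obtain ⟨η, hη⟩ := HasEnoughRootsOfUnity.exists_primitiveRoot (AlgebraicClosure F) (3 ^ (n + 1))
  obtain ⟨κ, hκ⟩ : ∃ κ : GK F →* (ZMod (3 ^ (n + 1)))ˣ, κ = hη.autToPow F := ⟨_, rfl⟩
  have hκ1 : ∀ σ : GK F, κ σ = 1 ↔ σ η = η := by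
    intro σ
    have h1 := hη.autToPow_spec F σ
    rw [← hκ] at h1
    constructor
    · intro h
      rw [h, Units.val_one, ZMod.val_one'' (by
        have : 1 < 3 ^ (n + 1) := Nat.one_lt_pow (by omega) (by norm_num)
        omega), pow_one] at h1
      exact h1.symm
    · intro h
      rw [h] at h1
      have h2 : η ^ ((κ σ : (ZMod (3 ^ (n + 1)))ˣ) : ZMod (3 ^ (n + 1))).val = η ^ 1 := by
        rw [pow_one]
        exact h1
      have h3 := hη.pow_inj (ZMod.val_lt _) (Nat.one_lt_pow (by omega) (by norm_num)) h2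
      apply Units.ext
      apply ZMod.val_injective
      rw [h3, Units.val_one, ZMod.val_one'' (by
        have : 1 < 3 ^ (n + 1) := Nat.one_lt_pow (by omega) (by norm_num)
        omega)]
  -- the root of `ζ` is a power of `η`
  have hker : ∀ σ : GK F, κ σ = 1 → ch 3 ζ s0 σ = 0 := by
    intro σ hσ
    rw [ch_zero_iff hζ (root_ne hζ0 hs0) hs0]
    have h1 : s0 ^ 3 ^ (n + 1) = 1 := by
      have h2 : 3 ^ (n + 1) = 3 * (3 * 3 ^ (n - 1)) := by
        rw [← pow_succ', ← pow_succ']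
        congr 1
        omega
      rw [h2, pow_mul, hs0, pow_mul, ← map_pow, hζ.pow_eq_one, map_one, one_pow]
    obtain ⟨i, -, rfl⟩ := hη.eq_pow_of_pow_eq_one h1
    rw [map_pow, (hκ1 σ).1 hσ]
  -- nonempty
  have hne : ∀ e : Fin m → ZMod 3, ∃ σ : GK F, κ σ = 1 ∧ Φ σ = Multiplicative.ofAdd e := by
    intro e
    have hcyc : IsCyclic (ZMod (3 ^ (n + 1)))ˣ :=
      ZMod.isCyclic_units_of_prime_pow 3 Nat.prime_three (by norm_num) (n + 1)
    have hcycR : IsCyclic κ.range := inferInstance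
    obtain ⟨⟨_, ⟨τ, rfl⟩⟩, hτ⟩ := IsCyclic.exists_generator (α := κ.range)
    have hτ' : ∀ σ : GK F, ∃ i : ℤ, κ σ = κ τ ^ i := by
      intro σ
      obtain ⟨i, hi⟩ := Subgroup.mem_zpowers_iff.1 (hτ ⟨κ σ, ⟨σ, rfl⟩⟩)
      refine ⟨i, ?_⟩
      have := congrArg (fun x : κ.range => (x : (ZMod (3 ^ (n + 1)))ˣ)) hi
      exact this.symm
    obtain ⟨σ1, hσ1⟩ := hsurj' (Multiplicative.ofAdd (Fin.cons 0 e : Fin (m + 1) → ZMod 3))
    obtain ⟨σ2, hσ2⟩ := hsurj' (Multiplicative.ofAdd (Fin.cons 1 0 : Fin (m + 1) → ZMod 3))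
    -- the first component is a homomorphism
    let g : GK F →* Multiplicative (ZMod 3) :=
      { toFun := fun σ => Multiplicative.ofAdd (ch 3 ζ s0 σ)
        map_one' := by
          rw [hker 1 (map_one κ)]
          rfl
        map_mul' := fun σ τ => by
          rw [Pool.Agent.Q265.LK.ch_mul hζ hζ0 hs0 σ τ]
          rfl }
    have hg : ∀ σ, g σ = Multiplicative.ofAdd (ch 3 ζ s0 σ) := fun _ => rfl
    have hgκ : ∀ σ, κ σ = 1 → g σ = 1 := by
      intro σ hσ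
      rw [hg, hker σ hσ]
      rfl
    have hcomp : ∀ σ, ch 3 ζ s0 σ = (Multiplicative.toAdd (Φ' σ)) 0 := by
      intro σ
      rw [hΦ']
      rfl
    have hg1 : g σ1 = 1 := by
      rw [hg, hcomp, hσ1]
      rfl
    have hg2 : g σ2 = Multiplicative.ofAdd 1 := by
      rw [hg, hcomp, hσ2]
      rfl
    have hgi : ∀ σ (i : ℤ), κ σ = κ τ ^ i → g σ = g τ ^ i := by
      intro σ i h
      have h1 : κ (σ * (τ ^ i)⁻¹) = 1 := by
        rw [map_mul, map_inv, map_zpow, h, mul_inv_cancel]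
      have h2 := hgκ _ h1
      rw [map_mul, map_inv, map_zpow, mul_inv_eq_one] at h2
      exact h2
    obtain ⟨i1, hi1⟩ := hτ' σ1
    obtain ⟨i2, hi2⟩ := hτ' σ2
    have k1 := hgi σ1 i1 hi1
    have k2 := hgi σ2 i2 hi2
    rw [hg1] at k1
    rw [hg2] at k2
    have hcube : ∀ x : Multiplicative (ZMod 3), x ^ 3 = 1 := mult3
    have hdiv : (3 : ℤ) ∣ i1 := by
      by_contra hnd
      have hgτ : g τ = 1 := by
        have hcop : IsCoprime (3 : ℤ) i1 := by
          rw [Int.isCoprime_iff_gcd_eq_one]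
          have h4 : Nat.Coprime 3 i1.natAbs := (Nat.Prime.coprime_iff_not_dvd Nat.prime_three).2
            fun h => hnd (by rw [← Int.dvd_natAbs]; exact_mod_cast h)
          exact h4
        obtain ⟨x, y, hxy⟩ := hcop
        calc g τ = g τ ^ (x * 3 + y * i1) := by rw [hxy, zpow_one]
          _ = (g τ ^ (3 : ℕ)) ^ x * (g τ ^ i1) ^ y := by
              rw [zpow_add, mul_comm x, mul_comm y, zpow_mul, zpow_mul]
              rfl
          _ = 1 := by rw [hcube, ← k1, one_zpow, one_zpow, one_mul]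
      rw [hgτ, one_zpow] at k2
      have : (1 : ZMod 3) = 0 := Multiplicative.ofAdd.injective (k2.trans ofAdd_zero.symm)
      exact one_ne_zero this
    obtain ⟨j, rfl⟩ := hdiv
    refine ⟨σ1 * ((τ ^ j) ^ 3)⁻¹, ?_, ?_⟩
    · rw [map_mul, map_inv, map_pow, map_zpow, hi1, mul_comm 3 j, zpow_mul]
      exact mul_inv_cancel _
    · have hcube' : ∀ x : Multiplicative (Fin m → ZMod 3), x ^ 3 = 1 := by
        intro x
        apply Multiplicative.toAdd.injective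
        funext i
        exact add3 ((Multiplicative.toAdd x : Fin m → ZMod 3) i)
      rw [map_mul, map_inv, map_pow, hcube', inv_one, mul_one, hΦ]
      congr 1
      funext i
      have h1 : ch 3 ζ (s i) σ1 = (Multiplicative.toAdd (Φ' σ1)) i.succ := by
        rw [hΦ']
        rfl
      rw [h1, hσ1]
      rfl
  -- Chebotarev's theorem for the class
  let Ψ : GK F →* (ZMod (3 ^ (n + 1)))ˣ × Multiplicative (Fin m → ZMod 3) := κ.prod Φ
  have hΨ : ∀ σ, Ψ σ = (κ σ, Φ σ) := fun _ => rfl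
  have hopen' : IsOpen (Ψ.ker : Set (GK F)) := by
    have h1 : (Ψ.ker : Set (GK F)) = (MulAction.stabilizer (GK F) η : Set (GK F)) ∩ (Φ.ker : Set (GK F)) := by
      ext σ
      rw [Set.mem_inter_iff, SetLike.mem_coe, SetLike.mem_coe, SetLike.mem_coe, MonoidHom.mem_ker,
        MonoidHom.mem_ker, MulAction.mem_stabilizer_iff, hΨ, Prod.mk_eq_one, hκ1]
      rfl
    rw [h1]
    exact (stabilizer_isOpen_of_isIntegral (K := F) η).inter hopen
  have hfinQ : Finite (GK F ⧸ Ψ.ker) := Finite.of_injective _ (QuotientGroup.kerLift_injective Ψ)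
  let C : Set (GK F) := {σ | Ψ σ = (1, Multiplicative.ofAdd e)}
  let D : Set (GK F) := {σ | κ σ = 1}
  have h1 := chebK F Ψ.ker hopen' C (by
      intro σ hσ τ
      show Ψ (τ * σ * τ⁻¹) = _
      rw [map_mul, map_mul, map_inv, mul_comm (Ψ τ), mul_inv_cancel_right]
      exact hσ) (by
      intro σ hσ u hu
      show Ψ (σ * u) = _
      rw [map_mul, MonoidHom.mem_ker.1 hu, mul_one]
      exact hσ)
  have h2 := chebK F Ψ.ker hopen' D (by
      intro σ hσ τ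
      show κ (τ * σ * τ⁻¹) = _
      rw [map_mul, map_mul, map_inv, mul_comm (κ τ), mul_inv_cancel_right]
      exact hσ) (by
      intro σ hσ u hu
      show κ (σ * u) = _
      have h3 : κ u = 1 := (Prod.mk.inj ((hΨ u).symm.trans (MonoidHom.mem_ker.1 hu))).1
      rw [map_mul, h3, mul_one]
      exact hσ)
  choose ρ hρ1 hρ2 using hne
  have hmkeq : ∀ σ τ : GK F, (QuotientGroup.mk σ : GK F ⧸ Ψ.ker) = QuotientGroup.mk τ ↔ Ψ σ = Ψ τ := by
    intro σ τ
    rw [QuotientGroup.eq, MonoidHom.mem_ker, map_mul, map_inv, inv_mul_eq_one]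
  have hC1 : ((QuotientGroup.mk : GK F → GK F ⧸ Ψ.ker) '' C).ncard = 1 := by
    rw [Set.ncard_eq_one]
    refine ⟨QuotientGroup.mk (ρ e), ?_⟩
    ext x
    constructor
    · rintro ⟨σ, hσ, rfl⟩
      rw [Set.mem_singleton_iff, hmkeq, hΨ (ρ e), hρ1, hρ2]
      exact hσ
    · intro hx
      rw [Set.mem_singleton_iff] at hx
      refine ⟨ρ e, ?_, hx.symm⟩
      show Ψ (ρ e) = _
      rw [hΨ, hρ1, hρ2]
  have hD1 : ((QuotientGroup.mk : GK F → GK F ⧸ Ψ.ker) '' D).ncard = 3 ^ m := by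
    have h3 : (QuotientGroup.mk : GK F → GK F ⧸ Ψ.ker) '' D =
        Set.range fun e : Fin m → ZMod 3 => (QuotientGroup.mk (ρ e) : GK F ⧸ Ψ.ker) := by
      ext x
      constructor
      · rintro ⟨σ, hσ, rfl⟩
        refine ⟨Multiplicative.toAdd (Φ σ), ?_⟩
        show QuotientGroup.mk (ρ _) = _
        rw [hmkeq, hΨ, hΨ, hρ1, hρ2]
        have : κ σ = 1 := hσ
        rw [this]
        rfl
      · rintro ⟨e, rfl⟩
        exact ⟨ρ e, hρ1 e, rfl⟩
    rw [h3, ← Nat.card_coe_set_eq, Nat.card_range_of_injective]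
    · rw [Nat.card_eq_fintype_card]
      simp [ZMod.card]
    · intro e e' h
      have h4 := (hmkeq _ _).1 h
      rw [hΨ, hΨ, hρ2, hρ2] at h4
      exact Multiplicative.ofAdd.injective (Prod.mk.inj h4).2
  have hQ0 : (Nat.card (GK F ⧸ Ψ.ker) : ℝ) ≠ 0 := by
    have : Nonempty (GK F ⧸ Ψ.ker) := ⟨QuotientGroup.mk 1⟩
    exact_mod_cast Nat.card_pos.ne'
  rw [hC1] at h1
  rw [hD1] at h2
  have hfr := (Pool.Agent.W401.Frob.main F).1
  -- the ratio
  have h3 : Tendsto (fun X : ℕ =>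
      ({v : HeightOneSpectrum (𝓞 F) | Ideal.absNorm v.asIdeal ≤ X ∧ ∃ σ ∈ C, IsFrob v σ}.ncard : ℝ) /
      ({v : HeightOneSpectrum (𝓞 F) | Ideal.absNorm v.asIdeal ≤ X ∧ ∃ σ ∈ D, IsFrob v σ}.ncard : ℝ)) atTop
      (𝓝 (1 / (3 : ℝ) ^ m)) := by
    have h4 := h1.div h2 (by
      push_cast
      positivity)
    have h5 : ((1 : ℕ) : ℝ) / (Nat.card (GK F ⧸ Ψ.ker) : ℝ) /
        (((3 ^ m : ℕ) : ℝ) / (Nat.card (GK F ⧸ Ψ.ker) : ℝ)) = 1 / (3 : ℝ) ^ m := by
      rw [div_div_div_cancel_right₀ hQ0]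
      push_cast
      rfl
    rw [h5] at h4
    refine h4.congr' ?_
    filter_upwards [eventually_ge_atTop 2] with X hX
    rw [Pi.div_apply, dens_eq, dens_eq]
    have h7 : (Nat.primeCounting X : ℝ) ≠ 0 := by
      have h8 : 0 < Nat.primeCounting X := by
        have h9 : Nat.primeCounting 2 ≤ Nat.primeCounting X := Nat.monotone_primeCounting hX
        have h10 : 0 < Nat.primeCounting 2 := by decide
        omega
      exact_mod_cast h8.ne'
    rw [div_div_div_cancel_right₀ h7]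
  -- comparison
  obtain ⟨S', hS'd⟩ : ∃ S' : Set (HeightOneSpectrum (𝓞 F)),
    S' = S ∪ {v | ((3 ^ (n + 1) : ℕ) : 𝓞 F) ∈ v.asIdeal} := ⟨_, rfl⟩
  have hS' : S'.Finite := by
    rw [hS'd]
    exact hS.union (fin_mem (Nat.cast_ne_zero.2 hM0))
  have hfrob : ∀ v ∉ S', ∀ σ : GK F, IsFrob v σ → (κ σ = 1 ↔ 3 ^ (n + 1) ∣ Ideal.absNorm v.asIdeal - 1) := by
    intro v hv σ hσ
    rw [hκ1]
    exact frob_root hM0 hη (fun h => hv (by rw [hS'd]; exact Or.inr h)) hσ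
  have hsym : ∀ v ∉ S', ∀ σ : GK F, IsFrob v σ → ∀ i, ch 3 ζ (s i) σ = sy 3 ζ v (a i) := by
    intro v hv
    exact hSv v fun h => hv (by rw [hS'd]; exact Or.inl h)
  have hPQ : ∀ v ∉ S', (3 ^ (n + 1) ∣ Ideal.absNorm v.asIdeal - 1 ∧ ∀ i, sy 3 ζ v (a i) = e i) →
      ∃ σ ∈ C, IsFrob v σ := by
    rintro v hv ⟨h, h'⟩
    obtain ⟨σ, hσ⟩ := hfr v
    refine ⟨σ, ?_, hσ⟩
    show Ψ σ = _
    rw [hΨ, (hfrob v hv σ hσ).2 h, hΦ]
    congr 2
    funext i
    rw [hsym v hv σ hσ i, h' i]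
  have hQP : ∀ v ∉ S', (∃ σ ∈ C, IsFrob v σ) →
      (3 ^ (n + 1) ∣ Ideal.absNorm v.asIdeal - 1 ∧ ∀ i, sy 3 ζ v (a i) = e i) := by
    rintro v hv ⟨σ, hσC, hσ⟩
    have h4 : Ψ σ = (1, Multiplicative.ofAdd e) := hσC
    rw [hΨ] at h4
    obtain ⟨h5, h6⟩ := Prod.mk.inj h4
    refine ⟨(hfrob v hv σ hσ).1 h5, fun i => ?_⟩
    rw [hΦ] at h6
    have h7 := congrFun (Multiplicative.ofAdd.injective h6) i
    rw [← hsym v hv σ hσ i]
    exact h7
  have hRS : ∀ v ∉ S', (3 ^ (n + 1) ∣ Ideal.absNorm v.asIdeal - 1) → ∃ σ ∈ D, IsFrob v σ := by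
    intro v hv h
    obtain ⟨σ, hσ⟩ := hfr v
    exact ⟨σ, (hfrob v hv σ hσ).2 h, hσ⟩
  have hSR : ∀ v ∉ S', (∃ σ ∈ D, IsFrob v σ) → 3 ^ (n + 1) ∣ Ideal.absNorm v.asIdeal - 1 := by
    rintro v hv ⟨σ, hσD, hσ⟩
    exact (hfrob v hv σ hσ).1 hσD
  -- the number of the primes of `D` tends to infinity
  have hRD : Tendsto (fun X : ℕ =>
      ({v : HeightOneSpectrum (𝓞 F) | Ideal.absNorm v.asIdeal ≤ X ∧ ∃ σ ∈ D, IsFrob v σ}.ncard : ℝ))
      atTop atTop := by
    have h4 : Tendsto (fun X : ℕ => (Nat.primeCounting X : ℝ)) atTop atTop :=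
      tendsto_natCast_atTop_atTop.comp Nat.tendsto_primeCounting
    have h5 := Filter.Tendsto.pos_mul_atTop (C := ((3 ^ m : ℕ) : ℝ) / (Nat.card (GK F ⧸ Ψ.ker) : ℝ)) (by
      have : (0 : ℝ) < (Nat.card (GK F ⧸ Ψ.ker) : ℝ) := lt_of_le_of_ne (Nat.cast_nonneg _) (Ne.symm hQ0)
      positivity) h2 h4
    refine h5.congr' ?_
    filter_upwards [eventually_ge_atTop 2] with X hX
    rw [dens_eq]
    have h7 : (Nat.primeCounting X : ℝ) ≠ 0 := by
      have h8 : 0 < Nat.primeCounting X := by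
        have h9 : Nat.primeCounting 2 ≤ Nat.primeCounting X := Nat.monotone_primeCounting hX
        have h10 : 0 < Nat.primeCounting 2 := by decide
        omega
      exact_mod_cast h8.ne'
    exact div_mul_cancel₀ _ h7
  have hK : Tendsto (fun X : ℕ => (S'.ncard : ℝ) /
      ({v : HeightOneSpectrum (𝓞 F) | Ideal.absNorm v.asIdeal ≤ X ∧ ∃ σ ∈ D, IsFrob v σ}.ncard : ℝ))
      atTop (𝓝 0) := Tendsto.div_atTop tendsto_const_nhds hRD
  have hone : Tendsto (fun X : ℕ =>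
      ({v : HeightOneSpectrum (𝓞 F) | Ideal.absNorm v.asIdeal ≤ X ∧ ∃ σ ∈ D, IsFrob v σ}.ncard : ℝ) /
      ({v : HeightOneSpectrum (𝓞 F) | Ideal.absNorm v.asIdeal ≤ X ∧ ∃ σ ∈ D, IsFrob v σ}.ncard : ℝ)) atTop
      (𝓝 1) := by
    refine tendsto_const_nhds.congr' ?_
    filter_upwards [hRD.eventually_gt_atTop 0] with X hX
    exact (div_self hX.ne').symm
  have hlim1 : Tendsto (fun X : ℕ =>
      ({v : HeightOneSpectrum (𝓞 F) | Ideal.absNorm v.asIdeal ≤ X ∧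
        (3 ^ (n + 1) ∣ Ideal.absNorm v.asIdeal - 1 ∧ ∀ i, sy 3 ζ v (a i) = e i)}.ncard : ℝ) /
      ({v : HeightOneSpectrum (𝓞 F) | Ideal.absNorm v.asIdeal ≤ X ∧ ∃ σ ∈ D, IsFrob v σ}.ncard : ℝ)) atTop
      (𝓝 (1 / (3 : ℝ) ^ m)) := by
    have hlow := h3.sub hK
    have hupp := h3.add hK
    rw [sub_zero] at hlow
    rw [add_zero] at hupp
    refine tendsto_of_tendsto_of_tendsto_of_le_of_le hlow hupp (fun X => ?_) (fun X => ?_)
    · show _ / _ - _ / _ ≤ _ / _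
      rw [← sub_div]
      apply div_le_div_of_nonneg_right _ (Nat.cast_nonneg _)
      have h4 := Pool.Agent.Q129.LQ.cmp (fun v => ∃ σ ∈ C, IsFrob v σ)
        (fun v => 3 ^ (n + 1) ∣ Ideal.absNorm v.asIdeal - 1 ∧ ∀ i, sy 3 ζ v (a i) = e i) S' hS' hQP X
      linarith
    · show _ / _ ≤ _ / _ + _ / _
      rw [← add_div]
      apply div_le_div_of_nonneg_right _ (Nat.cast_nonneg _)
      exact Pool.Agent.Q129.LQ.cmp (fun v => 3 ^ (n + 1) ∣ Ideal.absNorm v.asIdeal - 1 ∧ ∀ i, sy 3 ζ v (a i) = e i)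
        (fun v => ∃ σ ∈ C, IsFrob v σ) S' hS' hPQ X
  have hlim2 : Tendsto (fun X : ℕ =>
      ({v : HeightOneSpectrum (𝓞 F) | Ideal.absNorm v.asIdeal ≤ X ∧
        3 ^ (n + 1) ∣ Ideal.absNorm v.asIdeal - 1}.ncard : ℝ) /
      ({v : HeightOneSpectrum (𝓞 F) | Ideal.absNorm v.asIdeal ≤ X ∧ ∃ σ ∈ D, IsFrob v σ}.ncard : ℝ)) atTop
      (𝓝 1) := by
    have hlow := hone.sub hK
    have hupp := hone.add hK
    rw [sub_zero] at hlow
    rw [add_zero] at hupp
    refine tendsto_of_tendsto_of_tendsto_of_le_of_le hlow hupp (fun X => ?_) (fun X => ?_)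
    · show _ / _ - _ / _ ≤ _ / _
      rw [← sub_div]
      apply div_le_div_of_nonneg_right _ (Nat.cast_nonneg _)
      have h4 := Pool.Agent.Q129.LQ.cmp (fun v => ∃ σ ∈ D, IsFrob v σ)
        (fun v => 3 ^ (n + 1) ∣ Ideal.absNorm v.asIdeal - 1) S' hS' hSR X
      linarith
    · show _ / _ ≤ _ / _ + _ / _
      rw [← add_div]
      apply div_le_div_of_nonneg_right _ (Nat.cast_nonneg _)
      exact Pool.Agent.Q129.LQ.cmp (fun v => 3 ^ (n + 1) ∣ Ideal.absNorm v.asIdeal - 1)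
        (fun v => ∃ σ ∈ D, IsFrob v σ) S' hS' hRS X
  have hfinal := hlim1.div hlim2 one_ne_zero
  rw [div_one] at hfinal
  refine hfinal.congr' ?_
  filter_upwards [hRD.eventually_gt_atTop 0] with X hX
  rw [Pi.div_apply, div_div_div_cancel_right₀ hX.ne']

end Pool.Agent.H62.SH
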