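import Pool.Agent.H62.SH.Kf

/-!
# The cubic field of a good table is in the family
-/

set_option autoImplicit false
set_option linter.unusedSectionVars false
set_option linter.deprecated false

namespace Pool.Agent.H62.SH

open NumberField IsDedekindDomain
open Pool.Agent.Q7.LK (IsPow)
open Pool.Agent.H62.EX Pool.Agent.H62.Cft

section
variable {F K : Type} [Field F] [NumberField F] [IsCyclotomicExtension {3} ℚ F] [Field K]
  [NumberField K] [Algebra F K] {ζ : F}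

theorem sym_comm {k : ℕ} (s : {x : Fin k × Fin k // x.1 < x.2} → ZMod 3) (i j : Fin k) :
    sym s i j = sym s j i := by
  unfold sym
  rcases lt_trichotomy i j with h | h | h
  · rw [dif_pos h, dif_neg (not_lt.2 h.le), dif_pos h]
  · subst h
    rfl
  · rw [dif_neg (not_lt.2 h.le), dif_pos h, dif_pos h]

open Classical in
/-- **The cubic field of a good table is in the family.** -/
theorem fam (hL : S_P3L) (hζ : IsPrimitiveRoot ζ 3) {k : ℕ} {a : Fin (k + 1) → 𝓞 F}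
    (ha : ∀ i, Prime (a i) ∧ 3 * (2 * hζ.toInteger + 1) ∣ a i - 1) (hinj : Function.Injective a)
    {e : Fin (k + 1) → ℕ} (he : ∀ i, ¬ 3 ∣ e i)
    {s : {x : Fin (k + 1) × Fin (k + 1) // x.1 < x.2} → ZMod 3} {t : Fin (k + 1) → ZMod 3}
    (hs : ∀ x : {x : Fin (k + 1) × Fin (k + 1) // x.1 < x.2}, Idx hζ (a x.1.2) (a x.1.1) (s x).val)
    (ht : ∀ j, Idx hζ (a j) (2 * hζ.toInteger + 1) (t j).val)
    (h1 : ∑ j, (e j : ZMod 3) * t j ≠ 0) (hNS : NS (fun i => (e i : ZMod 3)) s)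
    (hK : Module.finrank F K = 3) {b : K}
    (hb : b ^ 3 = algebraMap F K ((∏ i, a i ^ e i : 𝓞 F) : F)) :
    ∃ _ : IsGalois F K, IsCyclic Gal(K/F) ∧ (Finset.univ.image a).card = k + 1 ∧
      (∀ w : HeightOneSpectrum (𝓞 K), (∀ π ∈ Finset.univ.image a, algebraMap (𝓞 F) (𝓞 K) π ∉ w.asIdeal) →
        Algebra.IsUnramifiedAt (𝓞 F) w.asIdeal) ∧
      (∀ π ∈ Finset.univ.image a, ∀ v : HeightOneSpectrum (𝓞 K), algebraMap (𝓞 F) (𝓞 K) π ∈ v.asIdeal →
        ∀ (g : Gal(K/F)) (x : 𝓞 K), g • x - x ∈ v.asIdeal) ∧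
      (∀ v w : HeightOneSpectrum (𝓞 K), 3 ∈ v.asIdeal → 3 ∈ w.asIdeal → v = w) ∧
      LocalCubes F K (Finset.univ.image a) := by
  obtain ⟨S, hSd⟩ : ∃ S : Finset (𝓞 F), S = Finset.univ.image a := ⟨_, rfl⟩
  obtain ⟨inv, hinv⟩ : ∃ inv : 𝓞 F → Fin (k + 1), ∀ i, inv (a i) = i :=
    ⟨Function.invFun a, Function.leftInverse_invFun hinj⟩
  have hmem : ∀ p, p ∈ S ↔ ∃ i, a i = p := by
    intro p
    rw [hSd, Finset.mem_image]
    simp
  have hS : ∀ p ∈ S, Prime p ∧ 3 * (2 * hζ.toInteger + 1) ∣ p - 1 := by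
    intro p hp
    obtain ⟨i, rfl⟩ := (hmem p).1 hp
    exact ha i
  have hS3 : ∀ p ∈ S, Prime p ∧ (3 : 𝓞 F) ∣ p - 1 := fun p hp =>
    ⟨(hS p hp).1, (dvd_mul_right _ _).trans (hS p hp).2⟩
  have hprod : ∀ f : 𝓞 F → 𝓞 F, ∏ p ∈ S, f p = ∏ i, f (a i) := by
    intro f
    rw [hSd, Finset.prod_image fun x _ y _ h => hinj h]
  have hsum : ∀ f : 𝓞 F → ℕ, ∑ p ∈ S, f p = ∑ i, f (a i) := by
    intro f
    rw [hSd, Finset.sum_image fun x _ y _ h => hinj h]
  have hb' : b ^ 3 = algebraMap F K ((∏ p ∈ S, p ^ (e (inv p)) : 𝓞 F) : F) := by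
    rw [hb, hprod fun p => p ^ (e (inv p))]
    simp only [hinv]
  have he' : ∀ p ∈ S, ¬ 3 ∣ e (inv p) := fun p _ => he _
  obtain ⟨hgal, hcyc, h2, h3, h4⟩ := kum_field hζ (S := S) ((hmem (a 0)).2 ⟨0, rfl⟩) hS
    (e := fun p => e (inv p)) he' hK hb' (t := fun p => (t (inv p)).val) (fun p hp => by
      obtain ⟨i, rfl⟩ := (hmem p).1 hp
      rw [hinv]
      exact ht i) (fun h => h1 (by
      rw [hsum fun p => e (inv p) * (t (inv p)).val] at h
      simp only [hinv] at h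
      have h5 := (ZMod.natCast_eq_zero_iff _ 3).2 h
      push_cast at h5
      simpa only [ZMod.natCast_val, ZMod.cast_id', id_eq] using h5))
  have hcard : S.card = k + 1 := by
    rw [hSd, Finset.card_image_of_injective _ hinj, Finset.card_univ, Fintype.card_fin]
  rw [← hSd]
  refine ⟨hgal, hcyc, hcard, h2, h3, h4, ?_⟩
  -- the local cubes
  have hc0 : (∏ p ∈ S, p) ≠ 0 := Finset.prod_ne_zero_iff.2 fun p hp => (hS3 p hp).1.ne_zero
  have hc3 : (3 : 𝓞 F) ∣ (∏ p ∈ S, p) - 1 := Pool.Agent.H62.three_dvd_prod hS3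
  obtain ⟨A, hA⟩ := art_of_cyclic (K := K) (n := 1) (by rw [hK, pow_one]) hc0 hc3 (fun w hw =>
    h2 w fun π hπ h => hw (by
      rw [map_prod]
      exact w.asIdeal.mem_of_dvd (Finset.dvd_prod_of_mem _ hπ) h))
  have hun3 : Pool.Agent.N883.T.Un3 F K := Pool.Agent.H62.un3_of hA hc3
  have T := Pool.Agent.H62.ms_of_art (n := 1) hζ one_ne_zero (by rw [hK, pow_one]) hS3 hun3 h3 h4
  refine hL F K ζ hζ 1 S T b (fun p => e (inv p)) hb' he'
    (fun t q => (sym s (inv q) (inv t)).val) ?_ ?_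
  · intro t ht' q hq hqt
    obtain ⟨i, rfl⟩ := (hmem q).1 hq
    obtain ⟨j, rfl⟩ := (hmem t).1 ht'
    rw [hinv, hinv]
    have hij : i ≠ j := fun h => hqt (by rw [h])
    rcases lt_or_gt_of_ne hij with h | h
    · have h5 := hs ⟨(i, j), h⟩
      unfold sym
      rw [dif_pos h]
      exact h5
    · have h5 := hs ⟨(j, i), h⟩
      unfold sym
      rw [dif_neg (not_lt.2 h.le), dif_pos h]
      exact idx_symm hζ (ha i).1 (ha i).2 (ha j).1 (ha j).2 (fun hd => hqt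
        (eq_of_assoc (hS3 _ hq).1 (hS3 _ ht').1 (hS3 _ hq).2 (hS3 _ ht').2
          ((ha j).1.irreducible.associated_of_dvd (ha i).1.irreducible hd).symm)) h5
  · intro y hy p hp q hq
    obtain ⟨i, rfl⟩ := (hmem p).1 hp
    obtain ⟨j, rfl⟩ := (hmem q).1 hq
    refine hNS (fun i => y (a i)) (fun t => ?_) i j
    have h5 := hy (a t) ((hmem _).2 ⟨t, rfl⟩)
    have h6 : S.erase (a t) = (Finset.univ.erase t).image a := by
      rw [hSd, Finset.image_erase hinj]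
    rw [h6, Finset.sum_image fun x _ y _ h => hinj h] at h5
    simp only [hinv, ZMod.natCast_val, ZMod.cast_id', id_eq] at h5
    rw [← Finset.add_sum_erase _ _ (Finset.mem_univ t), sub_self, mul_zero, zero_add]
    exact h5

end

end Pool.Agent.H62.SH
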