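import Pool.Agent.H62.EX.A2
import Pool.Agent.H62.SH.Kf

/-!
# The characters with a given cubic part
-/

set_option autoImplicit false
set_option linter.unusedSectionVars false
set_option linter.deprecated false

namespace Pool.Agent.H62.SH

open NumberField IsDedekindDomain
open Pool.Agent.H62.EX Pool.Agent.H62.Cft

section
variable {F : Type} [Field F] [NumberField F] [IsCyclotomicExtension {3} ℚ F] {ζ : F}

/-- a unit modulo `c` with given residues -/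
theorem exists_el {c : 𝓞 F} (hc0 : c ≠ 0) (f : HeightOneSpectrum (𝓞 F) → 𝓞 F)
    (hf : ∀ v : HeightOneSpectrum (𝓞 F), c ∈ v.asIdeal → f v ∉ v.asIdeal) :
    ∃ (u : (𝓞 F ⧸ Ideal.span {c})ˣ) (y : 𝓞 F), (u : 𝓞 F ⧸ Ideal.span {c}) = Ideal.Quotient.mk _ y ∧
      ∀ v : HeightOneSpectrum (𝓞 F), c ∈ v.asIdeal → y - f v ∈ v.asIdeal := by
  have hc1 : Ideal.absNorm (Ideal.span {c}) ≠ 0 := by
    rw [Ne, Ideal.absNorm_eq_zero_iff, Ideal.span_singleton_eq_bot]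
    exact hc0
  have hcN : ∀ v : HeightOneSpectrum (𝓞 F), c ∈ v.asIdeal →
      ((Ideal.absNorm (Ideal.span {c}) : ℕ) : 𝓞 F) ∈ v.asIdeal := fun v hv =>
    (Ideal.span_singleton_le_iff_mem _).2 hv (Ideal.absNorm_mem _)
  obtain ⟨y, hy⟩ := exists_near (F := F) hc1 f
  have hyu : ∀ w : HeightOneSpectrum (𝓞 F), c ∈ w.asIdeal → y ∉ w.asIdeal := by
    intro w hw hyw
    apply hf w hw
    have := w.asIdeal.sub_mem hyw (hy w (hcN w hw)).1
    rwa [sub_sub_cancel] at this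
  obtain ⟨u, hu⟩ := isUnit_mk hc0 hyu
  exact ⟨u, y, hu, fun v hv => (hy v (hcN v hv)).1⟩

theorem X_congr {c p : 𝓞 F} (hp : Prime p) (hpc : p ∣ c) {X : (𝓞 F ⧸ Ideal.span {c})ˣ →* ℂˣ}
    (h4 : ∀ (u : (𝓞 F ⧸ Ideal.span {c})ˣ) (y : 𝓞 F), (u : 𝓞 F ⧸ Ideal.span {c}) = Ideal.Quotient.mk _ y →
        p ∣ y - 1 → X u = 1)
    {u1 u2 : (𝓞 F ⧸ Ideal.span {c})ˣ} {y1 y2 : 𝓞 F}
    (h1 : (u1 : 𝓞 F ⧸ Ideal.span {c}) = Ideal.Quotient.mk _ y1)
    (h2 : (u2 : 𝓞 F ⧸ Ideal.span {c}) = Ideal.Quotient.mk _ y2) (h : p ∣ y1 - y2) : X u1 = X u2 := by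
  have hp2 : ¬ p ∣ y2 := by
    intro hd
    obtain ⟨t, ht⟩ := Ideal.Quotient.mk_surjective ((u2⁻¹ : (𝓞 F ⧸ Ideal.span {c})ˣ) : 𝓞 F ⧸ Ideal.span {c})
    have h3 : Ideal.Quotient.mk (Ideal.span {c}) (y2 * t) = Ideal.Quotient.mk (Ideal.span {c}) 1 := by
      rw [map_mul, ← h2, ht, map_one, Units.mul_inv]
    rw [Ideal.Quotient.eq, Ideal.mem_span_singleton] at h3
    have h5 := (hd.mul_right t).sub (hpc.trans h3)
    rw [sub_sub_cancel] at h5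
    exact hp.not_isUnit (isUnit_of_dvd_one h5)
  obtain ⟨t, ht⟩ := Ideal.Quotient.mk_surjective ((u1 * u2⁻¹ : (𝓞 F ⧸ Ideal.span {c})ˣ) : 𝓞 F ⧸ Ideal.span {c})
  have h3 : Ideal.Quotient.mk (Ideal.span {c}) (t * y2) = Ideal.Quotient.mk (Ideal.span {c}) y1 := by
    rw [map_mul, ht, ← h2, ← h1, ← Units.val_mul, inv_mul_cancel_right]
  rw [Ideal.Quotient.eq, Ideal.mem_span_singleton] at h3
  have h5 : p ∣ (t - 1) * y2 := by
    have h6 := (hpc.trans h3).add h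
    have : t * y2 - y1 + (y1 - y2) = (t - 1) * y2 := by ring
    rwa [this] at h6
  have h6 := h4 (u1 * u2⁻¹) t ht.symm ((hp.dvd_or_dvd h5).resolve_right hp2)
  rw [map_mul, map_inv, mul_inv_eq_one] at h6
  exact h6

theorem idx_pow {hζ : IsPrimitiveRoot ζ 3} {p x : 𝓞 F} {i : ℕ} (hx : Idx hζ p x i) (m : ℕ) :
    Idx hζ p (x ^ m) (m * i) := by
  induction m with
  | zero =>
    unfold Idx
    rw [pow_zero, one_pow, zero_mul, pow_zero, sub_self]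
    exact dvd_zero p
  | succ m ih =>
    rw [pow_succ, Nat.succ_mul]
    exact ih.mul hx

theorem idx_mod {hζ : IsPrimitiveRoot ζ 3} {p x : 𝓞 F} {i j : ℕ} (hx : Idx hζ p x i) (h : i % 3 = j % 3) :
    Idx hζ p x j := by
  unfold Idx at *
  have e : ∀ m : ℕ, hζ.toInteger ^ m = hζ.toInteger ^ (m % 3) := by
    intro m
    conv_lhs => rw [← Nat.div_add_mod m 3, pow_add, pow_mul, z_cube hζ, one_pow, one_mul]
  rw [e j, ← h, ← e i]
  exact hx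

/-- an element of index one -/
theorem exists_idx_one (hζ : IsPrimitiveRoot ζ 3) {p : 𝓞 F} (hp : Prime p) (hp3 : ¬ p ∣ 3) :
    ∃ y : 𝓞 F, ¬ p ∣ y ∧ Idx hζ p y 1 := by
  have h3N := three_dvd_Nm hζ hp hp3
  obtain ⟨g, hg⟩ := exists_noncube hp (by rw [← Nm_eq]; exact h3N)
  have hpg : ¬ p ∣ g := fun h => hg ⟨0, by
    rw [zero_pow three_ne_zero, zero_sub, dvd_neg]
    exact h⟩
  obtain ⟨j, hj3, hj⟩ := exists_idx hζ hp hp3 hpg
  have hj' : Idx hζ p g j := hj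
  have hj0 : j ≠ 0 := by
    rintro rfl
    rw [pow_zero] at hj
    exact hg (cube_of_pow hp hpg h3N hj)
  have h12 : j = 1 ∨ j = 2 := by omega
  rcases h12 with rfl | rfl
  · exact ⟨g, hpg, hj'⟩
  · exact ⟨g ^ 2, fun h => hpg (hp.dvd_of_dvd_pow h), idx_mod (idx_pow hj' 2) (by norm_num)⟩

/-- the cubic part of the character -/
theorem cubic_part (hζ : IsPrimitiveRoot ζ 3) {c p : 𝓞 F} (hc0 : c ≠ 0) (hp : Prime p) (hpc : p ∣ c)
    (hp3 : ¬ p ∣ 3) {n : ℕ} (hn0 : n ≠ 0) {X : (𝓞 F ⧸ Ideal.span {c})ˣ →* ℂˣ}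
    (hX1 : ∀ u, X u ^ 3 ^ n = 1)
    (hX2 : ∀ (u : (𝓞 F ⧸ Ideal.span {c})ˣ) (y : 𝓞 F), (u : 𝓞 F ⧸ Ideal.span {c}) = Ideal.Quotient.mk _ y →
        (¬ ∃ z : 𝓞 F, p ∣ z ^ 3 - y) → ∀ m : ℕ, X u ^ m = 1 → 3 ^ n ∣ m)
    (hX4 : ∀ (u : (𝓞 F ⧸ Ideal.span {c})ˣ) (y : 𝓞 F), (u : 𝓞 F ⧸ Ideal.span {c}) = Ideal.Quotient.mk _ y →
        p ∣ y - 1 → X u = 1) {ξ : ℂˣ} (hξ : IsPrimitiveRoot ξ 3) :
    ∃ ε : ℕ, (ε = 1 ∨ ε = 2) ∧ ∀ (u : (𝓞 F ⧸ Ideal.span {c})ˣ) (y : 𝓞 F) (j : ℕ),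
      (u : 𝓞 F ⧸ Ideal.span {c}) = Ideal.Quotient.mk _ y → ¬ p ∣ y → Idx hζ p y j →
        X u ^ 3 ^ (n - 1) = ξ ^ (ε * j) := by
  classical
  obtain ⟨m, rfl⟩ := Nat.exists_eq_succ_of_ne_zero hn0
  rw [Nat.succ_sub_one]
  obtain ⟨y0, hy0, hi0⟩ := exists_idx_one hζ hp hp3
  have hpP : (Ideal.span {p}).IsPrime := (Ideal.span_singleton_prime hp.ne_zero).2 hp
  let P : HeightOneSpectrum (𝓞 F) := ⟨Ideal.span {p}, hpP, by
    rw [Ne, Ideal.span_singleton_eq_bot]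
    exact hp.ne_zero⟩
  have hpm : p ∈ P.asIdeal := Ideal.mem_span_singleton_self p
  have hcP : c ∈ P.asIdeal := Ideal.mem_span_singleton.2 hpc
  -- units with a given residue modulo `p`
  have hel : ∀ x : 𝓞 F, ¬ p ∣ x → ∃ (u : (𝓞 F ⧸ Ideal.span {c})ˣ) (y : 𝓞 F),
      (u : 𝓞 F ⧸ Ideal.span {c}) = Ideal.Quotient.mk _ y ∧ p ∣ y - x := by
    intro x hx
    obtain ⟨u, y, h1, h2⟩ := exists_el hc0 (fun v => if v = P then x else 1) (fun v _ => by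
      by_cases hv : v = P
      · rw [if_pos hv, hv]
        exact fun h => hx (Ideal.mem_span_singleton.1 h)
      · rw [if_neg hv]
        exact fun h => v.isPrime.ne_top ((Ideal.eq_top_iff_one _).2 h))
    refine ⟨u, y, h1, ?_⟩
    have h3 := h2 P hcP
    rw [if_pos rfl] at h3
    exact Ideal.mem_span_singleton.1 h3
  obtain ⟨u0, y0', hu0, hy0'⟩ := hel y0 hy0
  have hi0' : Idx hζ p y0' 1 := hi0.congr hy0'
  have hpy0' : ¬ p ∣ y0' := fun h => hy0 (by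
    have := h.sub hy0'
    rwa [sub_sub_cancel] at this)
  have hnc : ¬ ∃ z : 𝓞 F, p ∣ z ^ 3 - y0' := by
    rintro ⟨z, hz⟩
    have hpz : ¬ p ∣ z := fun h => hpy0' (by
      have := (h.trans (dvd_pow_self z three_ne_zero)).sub hz
      rwa [sub_sub_cancel] at this)
    obtain ⟨j, -, hj⟩ := exists_idx hζ hp hp3 hpz
    have h1 : Idx hζ p (z ^ 3) (3 * j) := idx_pow hj 3
    have h2 : Idx hζ p y0' (3 * j) := h1.congr (by rw [← dvd_neg, neg_sub]; exact hz)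
    have h3 := Idx.uniq hp3 h2 hi0'
    rw [pow_mul, z_cube hζ, one_pow, pow_one] at h3
    exact hζ.toInteger_isPrimitiveRoot.ne_one (by norm_num) h3.symm
  set κ := X u0 ^ 3 ^ m with hκ
  have hκ3 : κ ^ 3 = 1 := by
    rw [hκ, ← pow_mul, ← pow_succ]
    exact hX1 u0
  have hκ1 : κ ≠ 1 := by
    intro h
    have h1 := hX2 u0 y0' hu0 hnc _ h
    have h2 := Nat.le_of_dvd (by positivity) h1
    have h3 : 3 ^ m < 3 ^ (m + 1) := Nat.pow_lt_pow_right (by norm_num) (Nat.lt_succ_self m)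
    exact absurd h2 (not_le.2 h3)
  obtain ⟨ε, hε3, hε'⟩ := (IsPrimitiveRoot.coe_units_iff.2 hξ).eq_pow_of_pow_eq_one (ξ := (κ : ℂ)) (by
    rw [← Units.val_pow_eq_pow_val, hκ3, Units.val_one])
  have hε : ξ ^ ε = κ := by
    apply Units.ext
    rw [Units.val_pow_eq_pow_val]
    exact hε'
  have hε0 : ε ≠ 0 := by
    rintro rfl
    rw [pow_zero] at hε
    exact hκ1 hε.symm
  refine ⟨ε, by omega, fun u y j hu hpy hj => ?_⟩
  -- the cube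
  have h3N := three_dvd_Nm hζ hp hp3
  have h1 : Idx hζ p (y * y0' ^ (2 * j)) 0 := by
    refine idx_mod (hj.mul (idx_pow hi0' (2 * j))) ?_
    omega
  obtain ⟨z, hz⟩ := cube_of_pow hp (x := y * y0' ^ (2 * j)) (fun h => by
    rcases hp.dvd_or_dvd h with h | h
    · exact hpy h
    · exact hpy0' (hp.dvd_of_dvd_pow h)) h3N (by
    unfold Idx at h1
    rwa [pow_zero] at h1)
  have hpz : ¬ p ∣ z := by
    intro h
    have h2 := (h.trans (dvd_pow_self z three_ne_zero)).sub hz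
    rw [sub_sub_cancel] at h2
    rcases hp.dvd_or_dvd h2 with h | h
    · exact hpy h
    · exact hpy0' (hp.dvd_of_dvd_pow h)
  obtain ⟨w, z', hw, hz'⟩ := hel z hpz
  have h2 : X (u * u0 ^ (2 * j)) = X (w ^ 3) := by
    refine X_congr hp hpc hX4 (y1 := y * y0' ^ (2 * j)) (y2 := z' ^ 3) ?_ ?_ ?_
    · rw [Units.val_mul, Units.val_pow_eq_pow_val, hu, hu0, map_mul, map_pow]
    · rw [Units.val_pow_eq_pow_val, hw, map_pow]
    · have h3 := hz'.trans (sub_dvd_pow_sub_pow z' z 3)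
      have h4 := hz.add h3
      have h5 : z ^ 3 - y * y0' ^ (2 * j) + (z' ^ 3 - z ^ 3) = -(y * y0' ^ (2 * j) - z' ^ 3) := by ring
      rw [h5, dvd_neg] at h4
      exact h4
  rw [map_mul, map_pow, map_pow] at h2
  have h3 := congrArg (fun t => t ^ 3 ^ m) h2
  simp only [mul_pow] at h3
  rw [← pow_mul (X w), ← pow_succ', hX1, ← pow_mul, mul_comm (2 * j), pow_mul, ← hκ] at h3
  -- `X u ^ 3 ^ m * κ ^ (2 j) = 1`
  have h4 : κ ^ (2 * j) * κ ^ j = 1 := by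
    rw [← pow_add]
    have : 2 * j + j = 3 * j := by ring
    rw [this, pow_mul, hκ3, one_pow]
  have h5 : X u ^ 3 ^ m = κ ^ j := by
    calc X u ^ 3 ^ m = X u ^ 3 ^ m * (κ ^ (2 * j) * κ ^ j) := by rw [h4, mul_one]
      _ = (X u ^ 3 ^ m * κ ^ (2 * j)) * κ ^ j := by rw [mul_assoc]
      _ = κ ^ j := by rw [h3, one_mul]
  rw [h5, ← hε, ← pow_mul]

end

end Pool.Agent.H62.SH
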