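import Pool.Agent.H62.SH.FnA

/-!
# The cyclic extension of degree `3 ^ n` of a table
-/

set_option autoImplicit false
set_option linter.unusedSectionVars false
set_option linter.deprecated false

namespace Pool.Agent.H62.SH

open NumberField IsDedekindDomain
open Pool.Agent.H62.EX Pool.Agent.H62.Cft
open Pool.Agent.Y696 (Art)

section
variable {F : Type} [Field F] [NumberField F] [IsCyclotomicExtension {3} ℚ F] {ζ : F}

/-- a cyclic group of order `3 ^ n`: the elements of order dividing `3 ^ (n - 1)` are cubes -/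
theorem cube_of_cyc {G : Type} [Group G] [Finite G] [IsCyclic G] {m : ℕ} (hG : Nat.card G = 3 ^ (m + 1))
    {x : G} (hx : x ^ 3 ^ m = 1) : ∃ y : G, y ^ 3 = x := by
  obtain ⟨g, hg⟩ := IsCyclic.exists_generator (α := G)
  have hog : orderOf g = Nat.card G := orderOf_eq_card_of_forall_mem_zpowers hg
  obtain ⟨k, rfl⟩ := Subgroup.mem_zpowers_iff.1 (hg x)
  rw [← zpow_natCast, ← zpow_mul] at hx
  have h1 := orderOf_dvd_iff_zpow_eq_one.2 hx
  rw [hog, hG] at h1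
  push_cast at h1
  rw [pow_succ, mul_comm k] at h1
  obtain ⟨j, rfl⟩ := Int.dvd_of_mul_dvd_mul_left (by positivity) h1
  exact ⟨g ^ j, by rw [← zpow_natCast, ← zpow_mul, mul_comm]; rfl⟩

/-- **The cyclic extension of degree `3 ^ n` of a table.** -/
theorem field_n (hD : S_D) (hζ : IsPrimitiveRoot ζ 3) {n : ℕ} (hn0 : n ≠ 0) {S : Finset (𝓞 F)}
    {p0 : 𝓞 F} (hp0 : p0 ∈ S) (hS : ∀ p ∈ S, Prime p ∧ 3 * (2 * hζ.toInteger + 1) ∣ p - 1)
    (hSN : ∀ p ∈ S, 3 ^ (n + 1) ∣ Ideal.absNorm (Ideal.span {p}) - 1) {e : 𝓞 F → ℕ}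
    (he : ∀ p ∈ S, ¬ 3 ∣ e p) {t : 𝓞 F → ℕ}
    (ht : ∀ p ∈ S, Idx hζ p (2 * hζ.toInteger + 1) (t p)) (h1 : ¬ 3 ∣ ∑ p ∈ S, e p * t p) :
    ∃ (K : Type) (_ : Field K) (_ : NumberField K) (_ : Algebra F K) (_ : IsGalois F K),
      IsCyclic Gal(K/F) ∧ Module.finrank F K = 3 ^ n ∧
      (∀ w : HeightOneSpectrum (𝓞 K), (∀ π ∈ S, algebraMap (𝓞 F) (𝓞 K) π ∉ w.asIdeal) →
        Algebra.IsUnramifiedAt (𝓞 F) w.asIdeal) ∧
      (∀ π ∈ S, ∀ v : HeightOneSpectrum (𝓞 K), algebraMap (𝓞 F) (𝓞 K) π ∈ v.asIdeal →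
        ∀ (g : Gal(K/F)) (x : 𝓞 K), g • x - x ∈ v.asIdeal) ∧
      (∀ v w : HeightOneSpectrum (𝓞 K), 3 ∈ v.asIdeal → 3 ∈ w.asIdeal → v = w) ∧
      (∃ b : K, b ^ 3 = algebraMap F K ((∏ p ∈ S, p ^ e p : 𝓞 F) : F)) ∧
      Pool.Agent.H62.Ms F K ζ n S := by
  classical
  obtain ⟨m, rfl⟩ := Nat.exists_eq_succ_of_ne_zero hn0
  have hreal := no_real F
  have hpid := IsCyclotomicExtension.Rat.three_pid F
  have hS3 : ∀ p ∈ S, Prime p ∧ (3 : 𝓞 F) ∣ p - 1 := fun p hp =>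
    ⟨(hS p hp).1, (dvd_mul_right _ _).trans (hS p hp).2⟩
  have hS33 : ∀ p ∈ S, ¬ p ∣ 3 := fun p hp => not_dvd_three (hS p hp).1 (hS p hp).2
  obtain ⟨θ, hθd⟩ : ∃ θ : 𝓞 F, θ = 2 * hζ.toInteger + 1 := ⟨_, rfl⟩
  have hθ : θ ^ 2 = -3 := by rw [hθd]; linear_combination 4 * zI hζ
  have ht' : ∀ p ∈ S, Idx hζ p θ (t p) := by rwa [hθd]
  have h9n : 3 ∣ 3 ^ (m + 1 + 1) := dvd_pow_self 3 (Nat.succ_ne_zero _)
  have hne : ∀ p ∈ S, ∀ q ∈ S, Associated p q → p = q := fun p hp q hq h =>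
    eq_of_assoc (hS3 p hp).1 (hS3 q hq).1 (hS3 p hp).2 (hS3 q hq).2 h
  obtain ⟨c, hcdef⟩ : ∃ c : 𝓞 F, c = ∏ p ∈ S, p := ⟨_, rfl⟩
  have hpc : ∀ p ∈ S, p ∣ c := fun p hp => hcdef ▸ Finset.dvd_prod_of_mem _ hp
  have hc0 : c ≠ 0 := hcdef ▸ Finset.prod_ne_zero_iff.2 fun p hp => (hS3 p hp).1.ne_zero
  have hc3 : (3 : 𝓞 F) ∣ c - 1 := hcdef ▸ Pool.Agent.H62.three_dvd_prod hS3
  have hcv : ∀ v : HeightOneSpectrum (𝓞 F), c ∈ v.asIdeal ↔ ∃ p ∈ S, p ∈ v.asIdeal := fun v => by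
    rw [hcdef]
    exact mem_c_iff
  have hcd : ∀ x : 𝓞 F, (∀ v : HeightOneSpectrum (𝓞 F), c ∈ v.asIdeal → x ∈ v.asIdeal) → c ∣ x := by
    intro x hx
    rw [hcdef]
    refine prod_dvd (fun p hp => (hS3 p hp).1) hne fun p hp => ?_
    have hmax : (Ideal.span {p}).IsPrime :=
      (Ideal.span_singleton_prime (hS3 p hp).1.ne_zero).2 (hS3 p hp).1
    have h1 := hx ⟨Ideal.span {p}, hmax, by
      rw [Ne, Ideal.span_singleton_eq_bot]
      exact (hS3 p hp).1.ne_zero⟩ (Ideal.mem_span_singleton.2 (hpc p hp))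
    exact Ideal.mem_span_singleton.1 h1
  -- the prime ideals of `S`
  have hPp : ∀ p ∈ S, ∃ P : HeightOneSpectrum (𝓞 F), P.asIdeal = Ideal.span {p} ∧ p ∈ P.asIdeal ∧
      c ∈ P.asIdeal := by
    intro p hp
    exact ⟨⟨Ideal.span {p}, (Ideal.span_singleton_prime (hS3 p hp).1.ne_zero).2 (hS3 p hp).1, by
      rw [Ne, Ideal.span_singleton_eq_bot]
      exact (hS3 p hp).1.ne_zero⟩, rfl, Ideal.mem_span_singleton_self p,
      Ideal.mem_span_singleton.2 (hpc p hp)⟩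
  -- the cube root of unity
  obtain ⟨ξ, hξ⟩ : ∃ ξ : ℂˣ, IsPrimitiveRoot ξ 3 := by
    have h := Complex.isPrimitiveRoot_exp 3 (by norm_num)
    exact ⟨(h.isUnit (by norm_num)).unit, h.isUnit_unit (by norm_num)⟩
  -- the characters
  have hex : ∀ p ∈ S, ∃ X : (𝓞 F ⧸ Ideal.span {c})ˣ →* ℂˣ, (∀ u, X u ^ 3 ^ (m + 1) = 1) ∧
      (∀ (u : (𝓞 F ⧸ Ideal.span {c})ˣ) (y : 𝓞 F), (u : 𝓞 F ⧸ Ideal.span {c}) = Ideal.Quotient.mk _ y →
        (¬ ∃ z : 𝓞 F, p ∣ z ^ 3 - y) → ∀ m' : ℕ, X u ^ m' = 1 → 3 ^ (m + 1) ∣ m') ∧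
      (∀ (u : (𝓞 F ⧸ Ideal.span {c})ˣ) (y : 𝓞 F), (u : 𝓞 F ⧸ Ideal.span {c}) = Ideal.Quotient.mk _ y →
        p ∣ y ^ 6 - 1 → X u = 1) ∧
      (∀ (u : (𝓞 F ⧸ Ideal.span {c})ˣ) (y : 𝓞 F), (u : 𝓞 F ⧸ Ideal.span {c}) = Ideal.Quotient.mk _ y →
        p ∣ y - 1 → X u = 1) ∧
      (∀ (u : (𝓞 F ⧸ Ideal.span {c})ˣ) (y : 𝓞 F) (j : ℕ),
        (u : 𝓞 F ⧸ Ideal.span {c}) = Ideal.Quotient.mk _ y → ¬ p ∣ y → Idx hζ p y j →
        X u ^ 3 ^ m = ξ ^ j) := by
    intro p hp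
    obtain ⟨X, k1, k2, k3, k4⟩ := exists_X (hS3 p hp).1 (hpc p hp) (hSN p hp)
    obtain ⟨ε, hε, k5⟩ := cubic_part hζ hc0 (hS3 p hp).1 (hpc p hp) (hS33 p hp) hn0 k1 k2 k4 hξ
    refine ⟨X ^ ε, fun u => ?_, fun u y hu hy m' hm' => ?_, fun u y hu hy => ?_, fun u y hu hy => ?_,
      fun u y j hu hpy hj => ?_⟩
    · rw [MonoidHom.pow_apply, ← pow_mul, mul_comm, pow_mul, k1, one_pow]
    · rw [MonoidHom.pow_apply, ← pow_mul] at hm'
      have h2 := k2 u y hu hy _ hm'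
      have h3 : Nat.Coprime (3 ^ (m + 1)) ε := by
        refine Nat.Coprime.pow_left _ ?_
        rcases hε with rfl | rfl <;> norm_num
      exact h3.dvd_of_dvd_mul_left h2
    · rw [MonoidHom.pow_apply, k3 u y hu hy, one_pow]
    · rw [MonoidHom.pow_apply, k4 u y hu hy, one_pow]
    · have h2 := k5 u y j hu hpy hj
      rw [Nat.succ_sub_one] at h2
      rw [MonoidHom.pow_apply, ← pow_mul, mul_comm ε, pow_mul, h2, ← pow_mul]
      rcases hε with rfl | rfl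
      · rw [one_mul, mul_one]
      · have : 2 * j * 2 = 3 * j + j := by ring
        rw [this, pow_add, pow_mul, hξ.pow_eq_one, one_pow, one_mul]
  choose! X hX1 hX2 hX3 hX4 hX5 using hex
  obtain ⟨χ, hχdef⟩ : ∃ χ : (𝓞 F ⧸ Ideal.span {c})ˣ →* ℂˣ, ∀ u, χ u = ∏ p ∈ S, X p u ^ e p :=
    ⟨∏ p ∈ S, X p ^ e p, fun u => by rw [MonoidHom.finsetProd_apply]; rfl⟩
  have hχ : ∀ (w : (𝓞 F)ˣ) (u : (𝓞 F ⧸ Ideal.span {c})ˣ),
      (u : 𝓞 F ⧸ Ideal.span {c}) = Ideal.Quotient.mk _ (w : 𝓞 F) → χ u = 1 := by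
    intro w u hu
    rw [hχdef]
    refine Finset.prod_eq_one fun p hp => ?_
    rw [hX3 p hp u w hu (by
      rw [unit_six w.isUnit, sub_self]
      exact dvd_zero p), one_pow]
  have hχn : ∀ x, χ x ^ 3 ^ (m + 1) = 1 := by
    intro x
    rw [hχdef, ← Finset.prod_pow]
    refine Finset.prod_eq_one fun p hp => ?_
    rw [← pow_mul, mul_comm, pow_mul, hX1 p hp, one_pow]
  -- the cubic part
  have hχc : ∀ (u : (𝓞 F ⧸ Ideal.span {c})ˣ) (y : 𝓞 F) (j : 𝓞 F → ℕ),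
      (u : 𝓞 F ⧸ Ideal.span {c}) = Ideal.Quotient.mk _ y → (∀ p ∈ S, ¬ p ∣ y) → (∀ p ∈ S, Idx hζ p y (j p)) →
      χ u ^ 3 ^ m = ξ ^ (∑ p ∈ S, e p * j p) := by
    intro u y j hu hpy hj
    rw [hχdef, ← Finset.prod_pow, ← Finset.prod_pow_eq_pow_sum]
    refine Finset.prod_congr rfl fun p hp => ?_
    rw [← pow_mul, mul_comm (e p), pow_mul, hX5 p hp u y (j p) hu (hpy p hp) (hj p hp), ← pow_mul,
      mul_comm (j p)]
  -- only one component
  have hone : ∀ p ∈ S, ∀ (u : (𝓞 F ⧸ Ideal.span {c})ˣ) (y : 𝓞 F),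
      (u : 𝓞 F ⧸ Ideal.span {c}) = Ideal.Quotient.mk _ y → (∀ s ∈ S, s ≠ p → X s u = 1) →
      (¬ ∃ z : 𝓞 F, p ∣ z ^ 3 - y) → ∀ m' : ℕ, χ u ^ m' = 1 → 3 ^ (m + 1) ∣ m' := by
    intro p hp u y hu hs hy m' hm
    rw [hχdef, Finset.prod_eq_single_of_mem p hp fun s hsS hne => by rw [hs s hsS hne, one_pow],
      ← pow_mul] at hm
    have h2 := hX2 p hp u y hu hy _ hm
    have h3 : Nat.Coprime (3 ^ (m + 1)) (e p) := Nat.Coprime.pow_left _
      ((Nat.Prime.coprime_iff_not_dvd Nat.prime_three).2 (he p hp))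
    exact h3.dvd_of_dvd_mul_left h2
  -- `θ`
  obtain ⟨uθ, huθ⟩ := isUnit_mk (a := θ) hc0 (fun v hv => by
    obtain ⟨p, hp, hpv⟩ := (hcv v).1 hv
    exact theta_not_mem hθ (hS3 p hp).2 hpv)
  have hθp : ∀ p ∈ S, ¬ p ∣ θ := by
    intro p hp hd
    apply hS33 p hp
    have h2 : p ∣ -(θ ^ 2) := (dvd_neg.2 (hd.trans (dvd_pow_self θ two_ne_zero)))
    rwa [hθ, neg_neg] at h2
  have hoθ : orderOf (χ uθ) = 3 ^ (m + 1) := by
    refine orderOf_eq_prime_pow ?_ (hχn uθ)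
    rw [hχc uθ θ t huθ hθp ht']
    intro h2
    exact h1 ((hξ.pow_eq_one_iff_dvd _).1 h2)
  obtain ⟨K, _, _, _, _, ψ, A, hcyc, hfin, hinj, hA, hψA⟩ :=
    exists_field' hD F hc0 hc3 hcd χ hχ hχn ⟨uθ, hoθ⟩
  have hcard : Nat.card Gal(K/F) = 3 ^ (m + 1) := by rw [IsGalois.card_aut_eq_finrank, hfin]
  -- total ramification
  have htot : ∀ p ∈ S, ∀ v : HeightOneSpectrum (𝓞 K), algebraMap (𝓞 F) (𝓞 K) p ∈ v.asIdeal →
      ∀ (g : Gal(K/F)) (x : 𝓞 K), g • x - x ∈ v.asIdeal := by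
    intro p hp v hv g x
    have h3N : 3 ∣ Ideal.absNorm (Ideal.span {p}) - 1 := h9n.trans (hSN p hp)
    obtain ⟨y0, hy0⟩ := exists_noncube (hS3 p hp).1 h3N
    let P : HeightOneSpectrum (𝓞 F) := v.under (𝓞 F)
    have hpP : p ∈ P.asIdeal := hv
    have hcP : c ∈ P.asIdeal := (hcv P).2 ⟨p, hp, hpP⟩
    have hPeq : ∀ w : HeightOneSpectrum (𝓞 F), p ∈ w.asIdeal → w = P := by
      intro w hw
      apply HeightOneSpectrum.ext
      rw [span_of_prime (hS3 p hp).1 hw, span_of_prime (hS3 p hp).1 hpP]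
    have hpy0 : ¬ p ∣ y0 := fun h => hy0 ⟨0, by
      rw [zero_pow three_ne_zero, zero_sub, dvd_neg]
      exact h⟩
    obtain ⟨u, y, hu, hy⟩ := exists_el hc0 (fun w => if p ∈ w.asIdeal then y0 else 1) (fun w _ => by
      by_cases hpw : p ∈ w.asIdeal
      · rw [if_pos hpw]
        exact fun h => hpy0 (dvd_of_mem (hS3 p hp).1 hpw h)
      · rw [if_neg hpw]
        exact fun h => w.isPrime.ne_top ((Ideal.eq_top_iff_one _).2 h))
    have hyp : p ∣ y - y0 := by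
      have h1 := hy P hcP
      rw [if_pos hpP] at h1
      exact dvd_of_mem (hS3 p hp).1 hpP h1
    have hyn : ¬ ∃ z : 𝓞 F, p ∣ z ^ 3 - y := by
      rintro ⟨z, hz⟩
      refine hy0 ⟨z, ?_⟩
      have := dvd_add hz hyp
      rwa [sub_add_sub_cancel] at this
    have hy1 : ∀ w : HeightOneSpectrum (𝓞 F), c ∈ w.asIdeal → p ∉ w.asIdeal → y - 1 ∈ w.asIdeal := by
      intro w hw hpw
      have h1 := hy w hw
      rwa [if_neg hpw] at h1
    refine tot_ram hn0 hfin hc0 hA ψ (P := P) y u hu ?_ hcd ?_ v rfl g x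
    · intro w hw hwP
      exact hy1 w hw fun h => hwP (hPeq w h)
    · intro m' hm
      rw [hψA] at hm
      refine hone p hp u y hu (fun s hs hsp => ?_) hyn m' hm
      refine hX4 s hs u y hu ?_
      obtain ⟨w, hw, hsw, hcw⟩ := hPp s hs
      refine dvd_of_mem (hS3 s hs).1 hsw (hy1 w hcw fun hpw => hsp ?_)
      rw [hw] at hpw
      have h1 : s ∣ p := Ideal.mem_span_singleton.1 hpw
      exact hne s hs p hp ((hS3 s hs).1.irreducible.associated_of_dvd (hS3 p hp).1.irreducible h1)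
  -- the prime above three
  have huniq : ∀ v w : HeightOneSpectrum (𝓞 K), 3 ∈ v.asIdeal → 3 ∈ w.asIdeal → v = w := by
    have hθv : ∀ v : HeightOneSpectrum (𝓞 K), (3 : 𝓞 K) ∈ v.asIdeal →
        algebraMap (𝓞 F) (𝓞 K) θ ∈ v.asIdeal := by
      intro v hv
      refine v.isPrime.mem_of_pow_mem 2 ?_
      rw [← map_pow, hθ, map_neg, map_ofNat]
      exact v.asIdeal.neg_mem hv
    have hunder : ∀ v : HeightOneSpectrum (𝓞 K), (3 : 𝓞 K) ∈ v.asIdeal →
        (v.under (𝓞 F)).asIdeal = Ideal.span {θ} := fun v hv => by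
      have h1 : θ ∈ (v.under (𝓞 F)).asIdeal := hθv v hv
      exact span_of_prime (theta_prime hθ) h1
    intro v w hv hw
    refine one_above (q := Nat.card (𝓞 F ⧸ Ideal.span {θ})) (g := A uθ) ?_ ?_ ?_ ?_
    · apply HeightOneSpectrum.ext
      rw [hunder v hv, hunder w hw]
    · have : Finite (𝓞 F ⧸ Ideal.span {θ}) := (card_unit_quot (theta_prime hθ)).1
      have : Nonempty (𝓞 F ⧸ Ideal.span {θ}) := ⟨0⟩
      exact Nat.card_pos.ne'
    · exact hA.frob θ (theta_prime hθ) uθ huθ v (hθv v hv)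
    · have h1 : Nat.card (Subgroup.zpowers (A uθ)) = Nat.card Gal(K/F) := by
        rw [Nat.card_zpowers, hcard, ← orderOf_injective ψ hinj, hψA, hoθ]
      have h2 := Subgroup.eq_top_of_card_eq _ h1
      intro t
      rw [h2]
      exact Subgroup.mem_top t
  have hun3 : Pool.Agent.N883.T.Un3 F K := Pool.Agent.H62.un3_of hA hc3
  have T := Pool.Agent.H62.ms_of_art hζ hn0 hfin hS3 hun3 htot huniq
  refine ⟨K, inferInstance, inferInstance, inferInstance, inferInstance, hcyc, hfin, ?_, htot, huniq, ?_, T⟩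
  · intro w hw
    refine hA.unr w fun h => ?_
    rw [hcdef, map_prod] at h
    have := w.isPrime
    obtain ⟨p, hp, hpw⟩ := Ideal.IsPrime.prod_mem_iff.1 h
    exact hw p hp hpw
  -- the cubic subfield
  subst hcdef
  obtain ⟨b, e', σ, hb, he', -, hb0, hσb⟩ := T.exists_kum (Pool.Agent.H62.unrS_of hA)
  have hζK : (algebraMap F K ζ) ^ 3 = 1 := by rw [← map_pow, hζ.pow_eq_one, map_one]
  -- proportional exponents
  have hprop : ∀ p ∈ S, (e' p * e p0 + 2 * (e' p0 * e p)) % 3 = 0 := by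
    intro p hp
    by_cases hpp : p = p0
    · subst hpp
      omega
    -- a unit with the indices `e p` at `p0`, `2 e p0` at `p`
    obtain ⟨g0, hg0, hi0⟩ := exists_idx_one hζ (hS3 p0 hp0).1 (hS33 p0 hp0)
    obtain ⟨g1, hg1, hi1⟩ := exists_idx_one hζ (hS3 p hp).1 (hS33 p hp)
    obtain ⟨u, y, hu, hy⟩ := exists_el hc0
      (fun w => if p0 ∈ w.asIdeal then g0 ^ (e p) else if p ∈ w.asIdeal then g1 ^ (2 * e p0) else 1)
      (fun w _ => by
        by_cases h0w : p0 ∈ w.asIdeal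
        · rw [if_pos h0w]
          exact fun h => hg0 ((hS3 p0 hp0).1.dvd_of_dvd_pow (dvd_of_mem (hS3 p0 hp0).1 h0w h))
        · rw [if_neg h0w]
          by_cases hpw : p ∈ w.asIdeal
          · rw [if_pos hpw]
            exact fun h => hg1 ((hS3 p hp).1.dvd_of_dvd_pow (dvd_of_mem (hS3 p hp).1 hpw h))
          · rw [if_neg hpw]
            exact fun h => w.isPrime.ne_top ((Ideal.eq_top_iff_one _).2 h))
    have hdis : ∀ q ∈ S, ∀ q' ∈ S, q ≠ q' → ∀ w : HeightOneSpectrum (𝓞 F), q ∈ w.asIdeal →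
        q' ∉ w.asIdeal := by
      intro q hq q' hq' hqq w hw hw'
      exact hqq (hne q hq q' hq' ((hS3 q hq).1.irreducible.associated_of_dvd (hS3 q' hq').1.irreducible
        (dvd_of_mem (hS3 q hq).1 hw hw')))
    have hind : ∀ q ∈ S, Idx hζ q y (if q = p0 then e p else if q = p then 2 * e p0 else 0) ∧ ¬ q ∣ y := by
      intro q hq
      obtain ⟨w, hw, hqw, hcw⟩ := hPp q hq
      have h2 := hy w hcw
      have key : ∀ {f : 𝓞 F} {i : ℕ}, y - f ∈ w.asIdeal → Idx hζ q f i → ¬ q ∣ f →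
          Idx hζ q y i ∧ ¬ q ∣ y := by
        intro f i h3 h4 h5
        have h6 := dvd_of_mem (hS3 q hq).1 hqw h3
        refine ⟨h4.congr h6, fun h7 => h5 ?_⟩
        have := h7.sub h6
        rwa [sub_sub_cancel] at this
      by_cases hq0 : q = p0
      · subst hq0
        rw [if_pos hqw] at h2
        rw [if_pos rfl]
        refine key h2 (idx_mod (idx_pow hi0 (e p)) (by rw [mul_one])) fun h => hg0 ?_
        exact (hS3 q hq).1.dvd_of_dvd_pow h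
      · rw [if_neg (hdis q hq p0 hp0 hq0 w hqw)] at h2
        rw [if_neg hq0]
        by_cases hqp : q = p
        · subst hqp
          rw [if_pos hqw] at h2
          rw [if_pos rfl]
          refine key h2 (idx_mod (idx_pow hi1 (2 * e p0)) (by rw [mul_one])) fun h => hg1 ?_
          exact (hS3 q hq).1.dvd_of_dvd_pow h
        · rw [if_neg (hdis q hq p hp hqp w hqw)] at h2
          rw [if_neg hqp]
          refine key h2 ?_ fun h => (hS3 q hq).1.not_isUnit (isUnit_of_dvd_one h)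
          unfold Idx
          rw [one_pow, pow_zero, sub_self]
          exact dvd_zero q
    have hsum : ∀ f : 𝓞 F → ℕ, ∑ q ∈ S, f q * (if q = p0 then e p else if q = p then 2 * e p0 else 0) =
        f p0 * e p + f p * (2 * e p0) := by
      intro f
      rw [← Finset.add_sum_erase _ _ hp0, if_pos rfl]
      congr 1
      rw [← Finset.add_sum_erase _ _ (Finset.mem_erase.2 ⟨hpp, hp⟩), if_neg hpp, if_pos rfl]
      rw [Finset.sum_eq_zero, add_zero]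
      intro q hq
      have hq1 := Finset.mem_erase.1 hq
      have hq2 := Finset.mem_erase.1 hq1.2
      rw [if_neg hq2.1, if_neg hq1.1, mul_zero]
    -- the automorphism is a cube
    have h2 := hχc u y _ hu (fun q hq => (hind q hq).2) (fun q hq => (hind q hq).1)
    rw [hsum e] at h2
    have h3 : ξ ^ (e p0 * e p + e p * (2 * e p0)) = 1 := by
      have : e p0 * e p + e p * (2 * e p0) = 3 * (e p0 * e p) := by ring
      rw [this, pow_mul, hξ.pow_eq_one, one_pow]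
    rw [h3, ← hψA, ← map_pow] at h2
    have h4 : A u ^ 3 ^ m = 1 := hinj (by rw [h2, map_one])
    obtain ⟨g, hg⟩ := cube_of_cyc hcard h4
    -- it fixes `b`
    have hb0' : b ≠ 0 := hb0
    obtain ⟨i, hi⟩ : ∃ i : ℕ, g b = algebraMap F K ζ ^ i * b := by
      have hζL : IsPrimitiveRoot (algebraMap F K ζ) 3 := hζ.map_of_injective (algebraMap F K).injective
      obtain ⟨i, hi, hia⟩ := hζL.eq_pow_of_pow_eq_one (ξ := g b / b) (by
        have e1 : (g b) ^ 3 = b ^ 3 := by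
          rw [← map_pow, hb]
          exact g.commutes _
        rw [div_pow, e1, div_self]
        exact pow_ne_zero _ hb0')
      exact ⟨i, by rw [hia]; field_simp⟩
    have hgz : g (algebraMap F K ζ) = algebraMap F K ζ := g.commutes ζ
    have h5 : (A u) b = b := by
      rw [← hg]
      have e1 : (g ^ 3) b = g (g (g b)) := rfl
      rw [e1, hi]
      simp only [map_mul, map_pow, hgz, hi]
      have e2 : algebraMap F K ζ ^ i * (algebraMap F K ζ ^ i * (algebraMap F K ζ ^ i * b)) =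
          ((algebraMap F K ζ) ^ 3) ^ i * b := by ring
      rw [e2, hζK, one_pow, one_mul]
    have h6 := art_idx' hζ hS rfl hA hb (x := y) (fun q hq => (hind q hq).2) hu (fun q hq => (hind q hq).1)
    rw [h5, hsum e'] at h6
    have h7 : algebraMap F K (ζ ^ (e' p0 * e p + e' p * (2 * e p0))) = 1 := by
      have h8 : (1 : K) * b = algebraMap F K (ζ ^ (e' p0 * e p + e' p * (2 * e p0))) * b := by
        rw [one_mul]
        exact h6
      exact (mul_right_cancel₀ hb0' h8).symm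
    rw [← map_one (algebraMap F K)] at h7
    have h8 := (hζ.pow_eq_one_iff_dvd _).1 ((algebraMap F K).injective h7)
    have h9 : e' p0 * e p + e' p * (2 * e p0) = e' p0 * e p + 2 * (e' p * e p0) := by ring
    rw [h9] at h8
    have h10 : e' p * e p0 + 2 * (e' p0 * e p) = e' p * e p0 + 2 * (e' p0 * e p) := rfl
    omega
  -- the cube root
  have hQ : ∀ q ∈ S, algebraMap F K (q : F) ≠ 0 := by
    intro q hq
    rw [Ne, map_eq_zero]
    exact fun h => (hS3 q hq).1.ne_zero (by exact_mod_cast h)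
  obtain ⟨ε, hε⟩ : ∃ ε : ℕ, ε = e' p0 * e p0 := ⟨_, rfl⟩
  have hek : ∀ p ∈ S, ∃ k : ℤ, (e p : ℤ) = ε * e' p + 3 * k := by
    intro p hp
    obtain ⟨r, hr⟩ := Nat.dvd_of_mod_eq_zero (hprop p hp)
    have h3 : e' p0 % 3 = 1 ∨ e' p0 % 3 = 2 := by
      have := he' p0 hp0
      omega
    obtain ⟨s, hs⟩ : ∃ s : ℤ, (e' p0 : ℤ) ^ 2 = 1 + 3 * s := by
      rcases h3 with h3 | h3
      · obtain ⟨q, hq⟩ : ∃ q : ℕ, e' p0 = 3 * q + 1 := ⟨e' p0 / 3, by omega⟩
        refine ⟨3 * q ^ 2 + 2 * q, ?_⟩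
        rw [hq]
        push_cast
        ring
      · obtain ⟨q, hq⟩ : ∃ q : ℕ, e' p0 = 3 * q + 2 := ⟨e' p0 / 3, by omega⟩
        refine ⟨3 * q ^ 2 + 4 * q + 1, ?_⟩
        rw [hq]
        push_cast
        ring
    have hr' : (e' p : ℤ) * e p0 + 2 * (e' p0 * e p) = 3 * r := by exact_mod_cast hr
    refine ⟨e p * (1 + 2 * s) - e' p0 * r, ?_⟩
    rw [hε]
    push_cast
    linear_combination (-(e' p0 : ℤ)) * hr' + 2 * (e p : ℤ) * hs
  choose! k hk using hek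
  refine ⟨b ^ ε * ∏ q ∈ S, algebraMap F K (q : F) ^ (k q), ?_⟩
  have hbe : b ^ 3 = ∏ q ∈ S, algebraMap F K (q : F) ^ (e' q) := by
    rw [hb, coe_prod']
  have h3 : (b ^ ε) ^ 3 = ∏ q ∈ S, algebraMap F K (q : F) ^ (e' q * ε) := by
    rw [← pow_mul, mul_comm _ 3, pow_mul, hbe, ← Finset.prod_pow]
    refine Finset.prod_congr rfl fun t _ => ?_
    rw [← pow_mul]
  rw [mul_pow, h3, ← Finset.prod_pow, ← Finset.prod_mul_distrib, coe_prod']
  refine Finset.prod_congr rfl fun q hq => ?_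
  have h4 := hQ q hq
  rw [← zpow_natCast, ← zpow_natCast, ← zpow_natCast, ← zpow_mul, ← zpow_add₀ h4, hk q hq]
  congr 1
  push_cast
  ring

end

end Pool.Agent.H62.SH
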