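import Pool.Graph.R_pool_sql_team_seeded_3997aac3.Q7.LK.Stm
import Pool.Agent.H62.EX.Stm
import Pool.Agent.H62.Rec

/-!
# The share of the cubic extensions with the property (R)

GOAL.  `F = ℚ(√-3)`, `e : Fin (k + 1) → ℕ` prime to three.  Among the tuples `q` of `k + 1` different primes of `F` with
`N(q i) ≡ 1` modulo nine (equivalently: the cubic residue symbol of `ζ` at `q i` is trivial), in the sense of the iterated limit
`Nest` of project LK, more than a third are such that the cubic extension `K = F((∏ a i ^ e i)^(1/3))`, `a i ≡ 1` modulo `3 θ` the normalised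
generator of `q i`, has one prime above three and satisfies (R).

(P1) `S_P1`: nested equidistribution of the tables of symbols.  (P2) `S_P2`: more than half of the symmetric tables are
nonsingular.  (P3): the field `K` belonging to a good table is in the family of `ThreePartSeveralPrimes`.
-/

set_option autoImplicit false

namespace Pool.Agent.H62.SH

open NumberField IsDedekindDomain
open Pool.Agent.Q7.LK (sy mon IsPow vl Tab Tb)
open Pool.Agent.Q283.LQ (Sm Box Nest)

open Classical in
/-- The part of the structure `Pool.Agent.Q7.LK.Base` that is needed for the equidistribution. -/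
structure Gd (p : ℕ) {F : Type} [Field F] [NumberField F] (y f : ℕ) (u : Fin f → F)
    (π : HeightOneSpectrum (𝓞 F) → F) : Prop where
  ue : ∀ l, u l ≠ 0
  uo : ∀ l v, ¬ Sm y v → vl p v (u l) = 0
  ind : ∀ c : Fin f → ZMod p, IsPow p (mon u c) → c = 0
  po : ∀ q, ¬ Sm y q → π q ≠ 0 ∧ ∀ v, ¬ Sm y v → vl p v (π q) = if v = q then 1 else 0

open Classical in
/-- JOB P1.  Equidistribution of the tables: the proof of `Pool.Agent.Q153.LK.nest` (file Q153/LK/NEST.lean, 336 lines)
with `Gd` instead of `Base` (only `ue`, `uo`, `ind`, `po` are used, in `indep`), and then the sum over the tables in `G` and in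
`A` (finitely many tables; every `q ∈ Box y X` has exactly one table `fun j l => sy p ζ (q j) (u l)`, ..;
`nest_mono`, and a finite conjunction lemma for `Nest`, see Q14/LK/Share.lean, where the same is done).
`Pool.Agent.Q7.LK.t_CHEB`, `t_BAS` (Q7/LK/All.lean) prove `S_CHEB`, `S_BAS`. -/
def S_P1 : Prop := ∀ (p : ℕ) [Fact p.Prime] (F : Type) [Field F] [NumberField F] (ζ : F), IsPrimitiveRoot ζ p →
  ∀ (y f : ℕ) (u : Fin f → F) (π : HeightOneSpectrum (𝓞 F) → F), Gd p y f u π →
  ∀ (k : ℕ) (A G : Finset (Tab p f k)) (c : ℝ), 0 < A.card → c * A.card < G.card →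
  Nest k fun X =>
    {q ∈ (Box y X : Set (Fin k → HeightOneSpectrum (𝓞 F))) | ∃ τ ∈ A, Tb ζ u π τ q}.Finite ∧
    {q ∈ (Box y X : Set (Fin k → HeightOneSpectrum (𝓞 F))) | ∃ τ ∈ G, Tb ζ u π τ q}.Finite ∧
    0 < {q ∈ (Box y X : Set (Fin k → HeightOneSpectrum (𝓞 F))) | ∃ τ ∈ A, Tb ζ u π τ q}.ncard ∧
    c * ({q ∈ (Box y X : Set (Fin k → HeightOneSpectrum (𝓞 F))) | ∃ τ ∈ A, Tb ζ u π τ q}.ncard : ℝ) <
      ({q ∈ (Box y X : Set (Fin k → HeightOneSpectrum (𝓞 F))) | ∃ τ ∈ G, Tb ζ u π τ q}.ncard : ℝ)

/-- the symbol of the pair `i ≠ j` of a table (symmetric) -/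
def sym {k : ℕ} (s : {x : Fin k × Fin k // x.1 < x.2} → ZMod 3) (i j : Fin k) : ZMod 3 :=
  if h : i < j then s ⟨(i, j), h⟩ else if h : j < i then s ⟨(j, i), h⟩ else 0

/-- the weighted Laplace matrix of the table has only the constant vectors in its kernel -/
def NS {k : ℕ} (e : Fin k → ZMod 3) (s : {x : Fin k × Fin k // x.1 < x.2} → ZMod 3) : Prop :=
  ∀ y : Fin k → ZMod 3, (∀ t, ∑ i, e i * e t * sym s i t * (y i - y t) = 0) → ∀ i j, y i = y j

open Classical in
/-- JOB P2 (only Mathlib).  More than half of the tables are nonsingular.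
Proof.  First moment: let `y` with `y 0 = 0`, `y ≠ 0` (`3 ^ k - 1` vectors, `Fin (k + 1)`).  The number of the `s` for which `y` is in the kernel is
`3 ^ (N - k)`, `N = k (k + 1) / 2` the number of the pairs: the linear map `s ↦ (∑ i, e i e t s_{it} (y i - y t))_t` has rank `k`:
its image is the space of the vectors with sum zero.  (Triangular argument instead of rank: choose `j0` with `y j0 ≠ 0`.  For `t ≠ j0` the equation at
`t` has its own variable: `s_{t,j0}` if `y t ≠ y j0` (in particular for `t = 0`), `s_{0,t}` if `y t = y j0`; compare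
`Pool.Agent.Q7.LK.S_COUNT` and its proof, template Q129/LQ/COUNT.)  So the sum over `s` of the number of the `y` is
`(3 ^ k - 1) 3 ^ (N - k) < 3 ^ N`; every `s` with `¬ NS` has at least the two vectors `y - y 0` and their negatives. -/
def S_P2 : Prop := ∀ (k : ℕ) (e : Fin (k + 1) → ZMod 3), (∀ i, e i ≠ 0) →
  Fintype.card ({x : Fin (k + 1) × Fin (k + 1) // x.1 < x.2} → ZMod 3) <
    2 * ((Finset.univ : Finset ({x : Fin (k + 1) × Fin (k + 1) // x.1 < x.2} → ZMod 3)).filter
      fun s => NS e s).card

end Pool.Agent.H62.SH
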