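import Pool.Agent.H62.SH.Stm2

/-!
# The share of the cyclic extensions of degree `3 ^ n` with the property (R)

GOAL.  As in `Pool.Agent.H62.SH.share` (file Tup.lean), but for all `n`: among the tuples of `k + 1` different primes `q i` of
`F = ℚ(√-3)` with `N(q i) ≡ 1` modulo `3 ^ (n + 1)`, more than a third are such that there is a cyclic extension `K / F` of degree
`3 ^ n` of the family of `ThreePartSeveralPrimes`, ramified exactly at the `q i`, with the cubic subfield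
`F((∏ a i ^ e i)^(1/3))`.

(N1) `S_CHN`: Chebotarev.  (N2) `S_P1N`: nested equidistribution, from `S_CHN`.  (N3) the field (helper62).
-/

set_option autoImplicit false

namespace Pool.Agent.H62.SH

open NumberField IsDedekindDomain Filter Topology
open Pool.Agent.Q7.LK (sy mon IsPow vl Tab Tb)
open Pool.Agent.Q283.LQ (Sm Box Nest)

/-- JOB N1.  Chebotarev's theorem for the cubic residue symbols and the primes with `N(v) ≡ 1` modulo `3 ^ (n + 1)`.
Proof.  The template is `Pool.Agent.Q265.LK.cheb` (Q265/LK/CHEB.lean, 262 lines; `chebK`, `ch_hom`, `ker_open`, `sym_frob` can be used as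
they are).  Let `η ∈ AlgebraicClosure F` be a primitive root of unity of order `3 ^ (n + 1)`.  `U` = the kernel of `Φ` (for the `a i`)
intersected with the (normal, open) stabiliser `H` of `η`; `C = {σ | Φ σ = e, σ η = η}`, one coset of `U` if it is not empty.  Its density is
`1 / [GK F : U]`, the same for all `e`, and the sum over the `3 ^ m` vectors `e` is the density of `{v | N(v) ≡ 1}`: so the ratio is
`1 / 3 ^ m` (the index `[GK F : U]` is not needed).  At the primes `v ∤ 3` a Frobenius element fixes `η` iff `3 ^ (n + 1) ∣ N(v) - 1`.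
Not empty: `Φ` restricted to `H` is surjective.  Otherwise some `χ = ∑ c i Φ i`, `c ≠ 0`, is trivial on `H` and is a character of `GK F / H`, a
cyclic group (it embeds into the group of the units of `ZMod (3 ^ (n + 1))`).  The character of `ζ` (the action on a cube root of `ζ`, a
power of `η`) is also trivial on `H`, and nontrivial (take `c = 0` in the hypothesis... `ζ` is not a cube in `F`: hypothesis for the
system `ζ, a`), so `χ = j Φ_ζ` and by Kummer theory `ζ ^ (-j) ∏ a i ^ c i` is a cube in `F`. -/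
def S_CHN : Prop := ∀ (F : Type) [Field F] [NumberField F] [IsCyclotomicExtension {3} ℚ F] (ζ : F),
  IsPrimitiveRoot ζ 3 → ∀ (n m : ℕ), n ≠ 0 → ∀ a : Fin m → F, (∀ i, a i ≠ 0) →
  (∀ c : Fin (m + 1) → ZMod 3, IsPow 3 (mon (Fin.cons ζ a : Fin (m + 1) → F) c) → c = 0) → ∀ e : Fin m → ZMod 3,
  Tendsto (fun X : ℕ =>
    ({v : HeightOneSpectrum (𝓞 F) | Ideal.absNorm v.asIdeal ≤ X ∧ 3 ^ (n + 1) ∣ Ideal.absNorm v.asIdeal - 1 ∧
        ∀ i, sy 3 ζ v (a i) = e i}.ncard : ℝ) /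
      ({v : HeightOneSpectrum (𝓞 F) | Ideal.absNorm v.asIdeal ≤ X ∧
        3 ^ (n + 1) ∣ Ideal.absNorm v.asIdeal - 1}.ncard : ℝ)) atTop (𝓝 (1 / (3 : ℝ) ^ m))

/-- the tuples of different primes, not above two and three, with norms one modulo `3 ^ (n + 1)` -/
def BoxN {F : Type} [Field F] [NumberField F] (n : ℕ) {k : ℕ} (X : Fin k → ℕ) :
    Set (Fin k → HeightOneSpectrum (𝓞 F)) :=
  {q | q ∈ Box 3 X ∧ ∀ i, 3 ^ (n + 1) ∣ Ideal.absNorm (q i).asIdeal - 1}

open Classical in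
/-- JOB N2 (uses `S_CHN`, `S_BAS`).  Nested equidistribution: `Pool.Agent.H40.SH.p1` (files H40/SH/P1a, P1) for the primes with
`N(v) ≡ 1` modulo `3 ^ (n + 1)`; the symbols of `ζ = u 0` are zero, the others, for `θ = u 1` and the `π (q j)`, are free.
(In the step `Fin.append u (π ∘ q)` is the system `Fin.cons ζ a`, `a = (θ, π (q 0), ..)`: `indep` gives the hypothesis of `S_CHN`.)  The
tables are those with `τ.1 j 0 = 0`; the share of each of them tends to `1 / 3 ^ (k + k (k - 1) / 2)`. -/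
def S_P1N : Prop := ∀ (F : Type) [Field F] [NumberField F] [IsCyclotomicExtension {3} ℚ F] (ζ θ : F),
  IsPrimitiveRoot ζ 3 → ∀ n : ℕ, n ≠ 0 →
  ∀ π : HeightOneSpectrum (𝓞 F) → F, Gd 3 3 2 ![ζ, θ] π →
  ∀ (k : ℕ) (A G : Finset (Tab 3 2 k)) (c : ℝ), (∀ τ ∈ A, ∀ j, τ.1 j 0 = 0) → (∀ τ ∈ G, ∀ j, τ.1 j 0 = 0) →
  0 < A.card → c * A.card < G.card →
  Nest k fun X =>
    {q ∈ (BoxN n X : Set (Fin k → HeightOneSpectrum (𝓞 F))) | ∃ τ ∈ A, Tb ζ ![ζ, θ] π τ q}.Finite ∧
    {q ∈ (BoxN n X : Set (Fin k → HeightOneSpectrum (𝓞 F))) | ∃ τ ∈ G, Tb ζ ![ζ, θ] π τ q}.Finite ∧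
    0 < {q ∈ (BoxN n X : Set (Fin k → HeightOneSpectrum (𝓞 F))) | ∃ τ ∈ A, Tb ζ ![ζ, θ] π τ q}.ncard ∧
    c * ({q ∈ (BoxN n X : Set (Fin k → HeightOneSpectrum (𝓞 F))) | ∃ τ ∈ A, Tb ζ ![ζ, θ] π τ q}.ncard : ℝ) <
      ({q ∈ (BoxN n X : Set (Fin k → HeightOneSpectrum (𝓞 F))) | ∃ τ ∈ G, Tb ζ ![ζ, θ] π τ q}.ncard : ℝ)

end Pool.Agent.H62.SH
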