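import Pool.Agent.H62.SH.Fam
import Pool.Agent.H62.SH.Sym
import Pool.Graph.R_pool_sql_team_seeded_3997aac3.Q14.LK.Share
import Pool.Graph.R_pool_sql_team_seeded_3997aac3.Q150.LK.HS1A0

/-!
# The share of the cubic extensions with the property (R): assembly
-/

set_option autoImplicit false
set_option linter.unusedSectionVars false
set_option linter.deprecated false

namespace Pool.Agent.H62.SH

open NumberField IsDedekindDomain
open Pool.Agent.Q7.LK (IsPow Sy sy vl Dp mon Tab Tb)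
open Pool.Agent.Q283.LQ (Sm Box Nest)
open Pool.Agent.H62.EX Pool.Agent.H62.Cft

/-- the tuples of `k + 1` different primes `q i` of `F` with `N (q i) ≡ 1` modulo nine and `N (q i) ≤ X i` -/
def Tup (F : Type) [Field F] [NumberField F] (k : ℕ) (X : Fin (k + 1) → ℕ) :
    Set (Fin (k + 1) → HeightOneSpectrum (𝓞 F)) :=
  {q | Function.Injective q ∧ ∀ i, 9 ∣ Ideal.absNorm (q i).asIdeal - 1 ∧ Ideal.absNorm (q i).asIdeal ≤ X i}

open Classical in
/-- the properties of the cubic field belonging to a tuple and a vector of exponents -/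
def Gf (F : Type) [Field F] [NumberField F] (θ : 𝓞 F) (k : ℕ) (e : Fin (k + 1) → ℕ)
    (q : Fin (k + 1) → HeightOneSpectrum (𝓞 F)) : Prop :=
  ∃ a : Fin (k + 1) → 𝓞 F, (∀ i, (q i).asIdeal = Ideal.span {a i} ∧ Prime (a i) ∧ 3 * θ ∣ a i - 1) ∧
    ∃ (K : Type) (_ : Field K) (_ : NumberField K) (_ : Algebra F K), Module.finrank F K = 3 ∧
      (∃ b : K, b ^ 3 = algebraMap F K ((∏ i, a i ^ e i : 𝓞 F) : F)) ∧
      IsGalois F K ∧ IsCyclic Gal(K/F) ∧ (Finset.univ.image a).card = k + 1 ∧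
      (∀ w : HeightOneSpectrum (𝓞 K), (∀ π ∈ Finset.univ.image a, algebraMap (𝓞 F) (𝓞 K) π ∉ w.asIdeal) →
        Algebra.IsUnramifiedAt (𝓞 F) w.asIdeal) ∧
      (∀ π ∈ Finset.univ.image a, ∀ v : HeightOneSpectrum (𝓞 K), algebraMap (𝓞 F) (𝓞 K) π ∈ v.asIdeal →
        ∀ (g : Gal(K/F)) (x : 𝓞 K), g • x - x ∈ v.asIdeal) ∧
      (∀ v w : HeightOneSpectrum (𝓞 K), 3 ∈ v.asIdeal → 3 ∈ w.asIdeal → v = w) ∧
      LocalCubes F K (Finset.univ.image a)

section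
variable {F : Type} [Field F] [NumberField F] [IsCyclotomicExtension {3} ℚ F] {ζ : F}

theorem not_sm {v : HeightOneSpectrum (𝓞 F)} (h9 : 9 ∣ Ideal.absNorm v.asIdeal - 1) : ¬ Sm 3 v := by
  rw [sym3]
  have hpos : Ideal.absNorm v.asIdeal ≠ 0 := by
    rw [Ne, Ideal.absNorm_eq_zero_iff]
    exact v.ne_bot
  have hne1 : Ideal.absNorm v.asIdeal ≠ 1 := by
    rw [Ne, Ideal.absNorm_eq_one_iff]
    exact v.isPrime.ne_top
  rintro (h | h)
  · have h1 : Ideal.span {((2 : ℕ) : 𝓞 F)} ≤ v.asIdeal :=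
      (Ideal.span_singleton_le_iff_mem _).2 (by exact_mod_cast h)
    have h2 := Ideal.absNorm_dvd_absNorm_of_le h1
    rw [span_natCast_norm] at h2
    have h3 := Nat.le_of_dvd (by norm_num) h2
    have h4 : Ideal.absNorm v.asIdeal = 1 ∨ Ideal.absNorm v.asIdeal = 2 ∨
      Ideal.absNorm v.asIdeal = 3 ∨ Ideal.absNorm v.asIdeal = 4 := by omega
    rcases h4 with h4 | h4 | h4 | h4
    · exact hne1 h4
    all_goals
      rw [h4] at h9
      omega
  · obtain ⟨m, hm⟩ := h9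
    have h1 : Ideal.absNorm v.asIdeal = 9 * m + 1 := by omega
    have h2 : ((Ideal.absNorm v.asIdeal : ℕ) : 𝓞 F) ∈ v.asIdeal := Ideal.absNorm_mem _
    rw [h1] at h2
    push_cast at h2
    have h3 : (9 * (m : 𝓞 F)) ∈ v.asIdeal := by
      have : (9 * (m : 𝓞 F)) = 3 * m * 3 := by ring
      rw [this]
      exact v.asIdeal.mul_mem_left _ h
    have h4 := v.asIdeal.sub_mem h2 h3
    rw [add_sub_cancel_left] at h4
    exact v.isPrime.ne_top ((Ideal.eq_top_iff_one _).2 h4)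

open Classical in
/-- **The share.** -/
theorem share (h1 : S_P1) (hC : S_P3C) (hL : S_P3L) {θ : 𝓞 F} (hθ : θ ^ 2 = -3) (k : ℕ)
    (e : Fin (k + 1) → ℕ) (he : ∀ i, ¬ 3 ∣ e i) :
    Nest (k + 1) fun X => (Tup F k X).Finite ∧ 0 < (Tup F k X).ncard ∧
      (Tup F k X).ncard < 3 * {q ∈ Tup F k X | Gf F θ k e q}.ncard := by
  have : Fact (Nat.Prime 3) := ⟨Nat.prime_three⟩
  obtain ⟨ζ, hζ⟩ := IsCyclotomicExtension.exists_isPrimitiveRoot ℚ F
    (Set.mem_singleton 3) (by norm_num)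
  have hθ2 : θ = 2 * hζ.toInteger + 1 ∨ θ = -(2 * hζ.toInteger + 1) := by
    have h2 : (θ - (2 * hζ.toInteger + 1)) * (θ + (2 * hζ.toInteger + 1)) = 0 := by
      linear_combination hθ - 4 * zI hζ
    rcases mul_eq_zero.1 h2 with h3 | h3
    · exact Or.inl (sub_eq_zero.1 h3)
    · exact Or.inr (eq_neg_of_add_eq_zero_left h3)
  have hdiv : ∀ x : 𝓞 F, 3 * (2 * hζ.toInteger + 1) ∣ x → 3 * θ ∣ x := by
    intro x hx
    rcases hθ2 with h | h
    · rwa [h]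
    · rw [h, mul_neg, neg_dvd]
      exact hx
  choose g hg1 hg2 hg3 using exists_norm_gen (F := F) hζ
  have hG := gd hζ (g := g) (fun v => ⟨hg1 v, hg2 v⟩)
  have hθc : ((2 * hζ.toInteger + 1 : 𝓞 F) : F) = 2 * ζ + 1 := by
    show algebraMap (𝓞 F) F _ = _
    rw [map_add, map_mul, map_one, map_ofNat]
    rfl
  have e0 : (![ζ, 2 * ζ + 1] : Fin 2 → F) 0 = ζ := Matrix.cons_val_zero _ _
  have e1 : (![ζ, 2 * ζ + 1] : Fin 2 → F) 1 = 2 * ζ + 1 := Matrix.cons_val_one _ _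
  have he3 : ∀ i, (e i : ZMod 3) ≠ 0 := fun i h => he i ((ZMod.natCast_eq_zero_iff _ 3).1 h)
  obtain ⟨hA0, hAG⟩ := hC k (fun i => (e i : ZMod 3)) he3
  have hN := h1 3 F ζ hζ 3 2 ![ζ, 2 * ζ + 1] (fun v => ((g v : 𝓞 F) : F)) hG (k + 1) _ _ (1 / 3) hA0 hAG
  refine Pool.Agent.Q14.LK.nest_mono (k + 1) (fun X hX => ?_) hN
  obtain ⟨hf1, hf2, hp, hlt⟩ := hX
  have hset : {q ∈ (Box 3 X : Set (Fin (k + 1) → HeightOneSpectrum (𝓞 F))) |
      ∃ τ ∈ (Finset.univ : Finset (Tab 3 2 (k + 1))).filter fun τ => ∀ j, τ.1 j 0 = 0,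
        Tb ζ ![ζ, 2 * ζ + 1] (fun v => ((g v : 𝓞 F) : F)) τ q} = Tup F k X := by
    ext q
    constructor
    · rintro ⟨⟨hq1, hq2⟩, τ, hτ, hT⟩
      refine ⟨hq1, fun i => ⟨?_, (hq2 i).2⟩⟩
      have h2 := hT.1 i 0
      rw [e0, (Finset.mem_filter.1 hτ).2 i] at h2
      refine (sy_zeta_iff hζ fun h => (hq2 i).1 ?_).1 h2
      rw [sym3]
      exact Or.inr h
    · rintro ⟨hq1, hq2⟩
      have hns : ∀ i, ¬ Sm 3 (q i) := fun i => not_sm (hq2 i).1
      refine ⟨⟨hq1, fun i => ⟨hns i, (hq2 i).2⟩⟩, ⟨fun j l => sy 3 ζ (q j) ((![ζ, 2 * ζ + 1] : Fin 2 → F) l),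
        fun x => sy 3 ζ (q x.1.2) ((g (q x.1.1) : 𝓞 F) : F)⟩, ?_, fun _ _ => rfl, fun _ => rfl⟩
      rw [Finset.mem_filter]
      refine ⟨Finset.mem_univ _, fun j => ?_⟩
      show sy 3 ζ (q j) ((![ζ, 2 * ζ + 1] : Fin 2 → F) 0) = 0
      rw [e0]
      have h2 := hns j
      rw [sym3, not_or] at h2
      exact (sy_zeta_iff hζ h2.2).2 (hq2 j).1
  have hsub : {q ∈ (Box 3 X : Set (Fin (k + 1) → HeightOneSpectrum (𝓞 F))) |
      ∃ τ ∈ (Finset.univ : Finset (Tab 3 2 (k + 1))).filter (fun τ =>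
        (∀ j, τ.1 j 0 = 0) ∧ ∑ j, (e j : ZMod 3) * τ.1 j 1 ≠ 0 ∧ NS (fun i => (e i : ZMod 3)) τ.2),
        Tb ζ ![ζ, 2 * ζ + 1] (fun v => ((g v : 𝓞 F) : F)) τ q} ⊆ {q ∈ Tup F k X | Gf F θ k e q} := by
    rintro q ⟨hq, τ, hτ, hT⟩
    obtain ⟨-, t1, t2, t3⟩ := Finset.mem_filter.1 hτ
    have hqT : q ∈ Tup F k X := by
      rw [← hset]
      exact ⟨hq, τ, Finset.mem_filter.2 ⟨Finset.mem_univ _, t1⟩, hT⟩
    refine ⟨hqT, fun i => g (q i), fun i => ⟨hg1 _, hg2 _, hdiv _ (hg3 _ (hqT.2 i).1)⟩, ?_⟩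
    have ha : ∀ i, Prime (g (q i)) ∧ 3 * (2 * hζ.toInteger + 1) ∣ g (q i) - 1 := fun i =>
      ⟨hg2 _, hg3 _ (hqT.2 i).1⟩
    have hinj : Function.Injective fun i => g (q i) := by
      intro i j hij
      apply hq.1
      apply HeightOneSpectrum.ext
      rw [hg1, hg1]
      exact congrArg (fun x => Ideal.span {x}) hij
    have hns : ∀ i, (3 : 𝓞 F) ∉ (q i).asIdeal := fun i h => (hq.2 i).1 ((sym3 _).2 (Or.inr h))
    -- the field
    have hp0 : ∀ p ∈ Finset.univ.image (fun i => g (q i)), Prime p ∧ (3 : 𝓞 F) ∣ p - 1 := by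
      intro p hp
      obtain ⟨i, -, rfl⟩ := Finset.mem_image.1 hp
      exact ⟨(ha i).1, (dvd_mul_right _ _).trans (ha i).2⟩
    have hnp : ¬ IsPow 3 ((∏ i, g (q i) ^ e i : 𝓞 F) : F) := by
      have h2 := not_isPow (F := F) hp0 (Finset.mem_image_of_mem _ (Finset.mem_univ (0 : Fin (k + 1))))
        (e := fun p => e (Function.invFun (fun i => g (q i)) p)) (by
          rw [Function.leftInverse_invFun hinj 0]
          exact he 0)
      rw [Finset.prod_image fun x _ y _ h => hinj h] at h2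
      have h3 : ∀ i, Function.invFun (fun i => g (q i)) (g (q i)) = i := Function.leftInverse_invFun hinj
      simp only [h3] at h2
      exact h2
    obtain ⟨K, _, _, _, hKum, -⟩ := Pool.Agent.Q150.LK.exists_kumfield hζ hnp
    obtain ⟨b, hb⟩ := hKum.root
    refine ⟨K, inferInstance, inferInstance, inferInstance, hKum.deg, ⟨b, hb⟩, ?_⟩
    have hs : ∀ x : {x : Fin (k + 1) × Fin (k + 1) // x.1 < x.2},
        Idx hζ (g (q x.1.2)) (g (q x.1.1)) (τ.2 x).val := by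
      intro x
      rw [← hT.2 x]
      refine idx_sy hζ (ha _).1 (hns x.1.2) ?_ ?_
      · have h2 := Ideal.mem_span_singleton_self (g (q x.1.2))
        rwa [← hg1 (q x.1.2)] at h2
      · intro h
        have h2 : q x.1.2 = q x.1.1 := by
          apply HeightOneSpectrum.ext
          rw [span_of_prime (ha x.1.1).1 h, hg1 (q x.1.1)]
        exact absurd (hq.1 h2) (ne_of_gt x.2)
    have ht : ∀ j, Idx hζ (g (q j)) (2 * hζ.toInteger + 1) (τ.1 j 1).val := by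
      intro j
      rw [← hT.1 j 1, e1, ← hθc]
      refine idx_sy hζ (ha _).1 (hns j) ?_ ?_
      · have h2 := Ideal.mem_span_singleton_self (g (q j))
        rwa [← hg1 (q j)] at h2
      · intro h
        apply hns j
        have h1 : -((2 * hζ.toInteger + 1) ^ 2) ∈ (q j).asIdeal :=
          (q j).asIdeal.neg_mem ((q j).asIdeal.pow_mem_of_mem h 2 (by norm_num))
        have h3 : (2 * hζ.toInteger + 1 : 𝓞 F) ^ 2 = -3 := by linear_combination 4 * zI hζ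
        rwa [h3, neg_neg] at h1
    obtain ⟨k1, k2⟩ := fam hL hζ ha hinj he (s := τ.2) (t := fun j => τ.1 j 1) hs ht t2 t3 hKum.deg hb
    exact ⟨k1, k2⟩
  rw [hset] at hf1 hp hlt
  have hfin2 : {q ∈ Tup F k X | Gf F θ k e q}.Finite := hf1.subset fun q hq => hq.1
  have hle := Set.ncard_le_ncard hsub hfin2
  refine ⟨hf1, hp, ?_⟩
  have h2 : (1 / 3 : ℝ) * ((Tup F k X).ncard : ℝ) < ({q ∈ Tup F k X | Gf F θ k e q}.ncard : ℝ) :=
    lt_of_lt_of_le hlt (by exact_mod_cast hle)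
  have h3 : ((Tup F k X).ncard : ℝ) < 3 * ({q ∈ Tup F k X | Gf F θ k e q}.ncard : ℝ) := by linarith
  exact_mod_cast h3

end

end Pool.Agent.H62.SH
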