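import Pool.Agent.H62.SH.Fam
import Pool.Agent.H62.SH.Sym
import Pool.Agent.H62.SH.FnB
import Pool.Agent.H62.SH.Stm3
import Pool.Agent.H62.SH.Tup

/-!
# The share of the cyclic extensions of degree `3 ^ n` with the property (R): assembly
-/

set_option autoImplicit false
set_option linter.unusedSectionVars false
set_option linter.deprecated false

namespace Pool.Agent.H62.SH

open NumberField IsDedekindDomain
open Pool.Agent.Q7.LK (IsPow Sy sy vl Dp mon Tab Tb)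
open Pool.Agent.Q283.LQ (Sm Box Nest)
open Pool.Agent.H62.EX Pool.Agent.H62.Cft

/-- the tuples of `k + 1` different primes `q i` of `F` with `N (q i) ≡ 1` modulo `3 ^ (n + 1)` and `N (q i) ≤ X i` -/
def TupN (F : Type) [Field F] [NumberField F] (n k : ℕ) (X : Fin (k + 1) → ℕ) :
    Set (Fin (k + 1) → HeightOneSpectrum (𝓞 F)) :=
  {q | Function.Injective q ∧ ∀ i, 3 ^ (n + 1) ∣ Ideal.absNorm (q i).asIdeal - 1 ∧
    Ideal.absNorm (q i).asIdeal ≤ X i}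

open Classical in
/-- the properties of the cyclic field belonging to a tuple and a vector of exponents -/
def GfN (F : Type) [Field F] [NumberField F] (θ : 𝓞 F) (n k : ℕ) (e : Fin (k + 1) → ℕ)
    (q : Fin (k + 1) → HeightOneSpectrum (𝓞 F)) : Prop :=
  ∃ a : Fin (k + 1) → 𝓞 F, (∀ i, (q i).asIdeal = Ideal.span {a i} ∧ Prime (a i) ∧ 3 * θ ∣ a i - 1) ∧
    ∃ (K : Type) (_ : Field K) (_ : NumberField K) (_ : Algebra F K), Module.finrank F K = 3 ^ n ∧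
      (∃ b : K, b ^ 3 = algebraMap F K ((∏ i, a i ^ e i : 𝓞 F) : F)) ∧
      IsGalois F K ∧ IsCyclic Gal(K/F) ∧ (Finset.univ.image a).card = k + 1 ∧
      (∀ w : HeightOneSpectrum (𝓞 K), (∀ π ∈ Finset.univ.image a, algebraMap (𝓞 F) (𝓞 K) π ∉ w.asIdeal) →
        Algebra.IsUnramifiedAt (𝓞 F) w.asIdeal) ∧
      (∀ π ∈ Finset.univ.image a, ∀ v : HeightOneSpectrum (𝓞 K), algebraMap (𝓞 F) (𝓞 K) π ∈ v.asIdeal →
        ∀ (g : Gal(K/F)) (x : 𝓞 K), g • x - x ∈ v.asIdeal) ∧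
      (∀ v w : HeightOneSpectrum (𝓞 K), 3 ∈ v.asIdeal → 3 ∈ w.asIdeal → v = w) ∧
      LocalCubes F K (Finset.univ.image a)

section
variable {F : Type} [Field F] [NumberField F] [IsCyclotomicExtension {3} ℚ F] {ζ : F}

open Classical in
/-- **The cyclic field of a good table is in the family.** -/
theorem fam_n (hD : S_D) (hL : S_P3L) (hζ : IsPrimitiveRoot ζ 3) {n : ℕ} (hn0 : n ≠ 0) {k : ℕ}
    {a : Fin (k + 1) → 𝓞 F}
    (ha : ∀ i, Prime (a i) ∧ 3 * (2 * hζ.toInteger + 1) ∣ a i - 1)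
    (haN : ∀ i, 3 ^ (n + 1) ∣ Ideal.absNorm (Ideal.span {a i}) - 1) (hinj : Function.Injective a)
    {e : Fin (k + 1) → ℕ} (he : ∀ i, ¬ 3 ∣ e i)
    {s : {x : Fin (k + 1) × Fin (k + 1) // x.1 < x.2} → ZMod 3} {t : Fin (k + 1) → ZMod 3}
    (hs : ∀ x : {x : Fin (k + 1) × Fin (k + 1) // x.1 < x.2}, Idx hζ (a x.1.2) (a x.1.1) (s x).val)
    (ht : ∀ j, Idx hζ (a j) (2 * hζ.toInteger + 1) (t j).val)
    (h1 : ∑ j, (e j : ZMod 3) * t j ≠ 0) (hNS : NS (fun i => (e i : ZMod 3)) s) :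
    ∃ (K : Type) (_ : Field K) (_ : NumberField K) (_ : Algebra F K), Module.finrank F K = 3 ^ n ∧
      (∃ b : K, b ^ 3 = algebraMap F K ((∏ i, a i ^ e i : 𝓞 F) : F)) ∧
      IsGalois F K ∧ IsCyclic Gal(K/F) ∧ (Finset.univ.image a).card = k + 1 ∧
      (∀ w : HeightOneSpectrum (𝓞 K), (∀ π ∈ Finset.univ.image a, algebraMap (𝓞 F) (𝓞 K) π ∉ w.asIdeal) →
        Algebra.IsUnramifiedAt (𝓞 F) w.asIdeal) ∧
      (∀ π ∈ Finset.univ.image a, ∀ v : HeightOneSpectrum (𝓞 K), algebraMap (𝓞 F) (𝓞 K) π ∈ v.asIdeal →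
        ∀ (g : Gal(K/F)) (x : 𝓞 K), g • x - x ∈ v.asIdeal) ∧
      (∀ v w : HeightOneSpectrum (𝓞 K), 3 ∈ v.asIdeal → 3 ∈ w.asIdeal → v = w) ∧
      LocalCubes F K (Finset.univ.image a) := by
  obtain ⟨S, hSd⟩ : ∃ S : Finset (𝓞 F), S = Finset.univ.image a := ⟨_, rfl⟩
  obtain ⟨inv, hinv⟩ : ∃ inv : 𝓞 F → Fin (k + 1), ∀ i, inv (a i) = i :=
    ⟨Function.invFun a, Function.leftInverse_invFun hinj⟩
  have hmem : ∀ p, p ∈ S ↔ ∃ i, a i = p := by
    intro p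
    rw [hSd, Finset.mem_image]
    simp
  have hS : ∀ p ∈ S, Prime p ∧ 3 * (2 * hζ.toInteger + 1) ∣ p - 1 := by
    intro p hp
    obtain ⟨i, rfl⟩ := (hmem p).1 hp
    exact ha i
  have hSN : ∀ p ∈ S, 3 ^ (n + 1) ∣ Ideal.absNorm (Ideal.span {p}) - 1 := by
    intro p hp
    obtain ⟨i, rfl⟩ := (hmem p).1 hp
    exact haN i
  have hS3 : ∀ p ∈ S, Prime p ∧ (3 : 𝓞 F) ∣ p - 1 := fun p hp =>
    ⟨(hS p hp).1, (dvd_mul_right _ _).trans (hS p hp).2⟩
  have hprod : ∀ f : 𝓞 F → 𝓞 F, ∏ p ∈ S, f p = ∏ i, f (a i) := by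
    intro f
    rw [hSd, Finset.prod_image fun x _ y _ h => hinj h]
  have hsum : ∀ f : 𝓞 F → ℕ, ∑ p ∈ S, f p = ∑ i, f (a i) := by
    intro f
    rw [hSd, Finset.sum_image fun x _ y _ h => hinj h]
  have he' : ∀ p ∈ S, ¬ 3 ∣ e (inv p) := fun p _ => he _
  obtain ⟨K, _, _, _, hgal, hcyc, hK, h2, h3, h4, ⟨b, hb'⟩, T⟩ := field_n hD hζ hn0 (S := S)
    ((hmem (a 0)).2 ⟨0, rfl⟩) hS hSN
    (e := fun p => e (inv p)) he' (t := fun p => (t (inv p)).val) (fun p hp => by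
      obtain ⟨i, rfl⟩ := (hmem p).1 hp
      rw [hinv]
      exact ht i) (fun h => h1 (by
      rw [hsum fun p => e (inv p) * (t (inv p)).val] at h
      simp only [hinv] at h
      have h5 := (ZMod.natCast_eq_zero_iff _ 3).2 h
      push_cast at h5
      simpa only [ZMod.natCast_val, ZMod.cast_id', id_eq] using h5))
  have hcard : S.card = k + 1 := by
    rw [hSd, Finset.card_image_of_injective _ hinj, Finset.card_univ, Fintype.card_fin]
  have hb : b ^ 3 = algebraMap F K ((∏ i, a i ^ e i : 𝓞 F) : F) := by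
    rw [hb', hprod fun p => p ^ (e (inv p))]
    simp only [hinv]
  rw [← hSd]
  refine ⟨K, inferInstance, inferInstance, inferInstance, hK, ⟨b, hb⟩, hgal, hcyc, hcard, h2, h3, h4, ?_⟩
  -- the local cubes
  refine hL F K ζ hζ n S T b (fun p => e (inv p)) hb' he'
    (fun t q => (sym s (inv q) (inv t)).val) ?_ ?_
  · intro t ht' q hq hqt
    obtain ⟨i, rfl⟩ := (hmem q).1 hq
    obtain ⟨j, rfl⟩ := (hmem t).1 ht'
    rw [hinv, hinv]
    have hij : i ≠ j := fun h => hqt (by rw [h])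
    rcases lt_or_gt_of_ne hij with h | h
    · have h5 := hs ⟨(i, j), h⟩
      unfold sym
      rw [dif_pos h]
      exact h5
    · have h5 := hs ⟨(j, i), h⟩
      unfold sym
      rw [dif_neg (not_lt.2 h.le), dif_pos h]
      exact idx_symm hζ (ha i).1 (ha i).2 (ha j).1 (ha j).2 (fun hd => hqt
        (eq_of_assoc (hS3 _ hq).1 (hS3 _ ht').1 (hS3 _ hq).2 (hS3 _ ht').2
          ((ha j).1.irreducible.associated_of_dvd (ha i).1.irreducible hd).symm)) h5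
  · intro y hy p hp q hq
    obtain ⟨i, rfl⟩ := (hmem p).1 hp
    obtain ⟨j, rfl⟩ := (hmem q).1 hq
    refine hNS (fun i => y (a i)) (fun t => ?_) i j
    have h5 := hy (a t) ((hmem _).2 ⟨t, rfl⟩)
    have h6 : S.erase (a t) = (Finset.univ.erase t).image a := by
      rw [hSd, Finset.image_erase hinj]
    rw [h6, Finset.sum_image fun x _ y _ h => hinj h] at h5
    simp only [hinv, ZMod.natCast_val, ZMod.cast_id', id_eq] at h5
    rw [← Finset.add_sum_erase _ _ (Finset.mem_univ t), sub_self, mul_zero, zero_add]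
    exact h5

open Classical in
/-- **The share.** -/
theorem share_n (h1 : S_P1N) (hC : S_P3C) (hD : S_D) (hL : S_P3L) {θ : 𝓞 F} (hθ : θ ^ 2 = -3) {n : ℕ}
    (hn0 : n ≠ 0) (k : ℕ) (e : Fin (k + 1) → ℕ) (he : ∀ i, ¬ 3 ∣ e i) :
    Nest (k + 1) fun X => (TupN F n k X).Finite ∧ 0 < (TupN F n k X).ncard ∧
      (TupN F n k X).ncard < 3 * {q ∈ TupN F n k X | GfN F θ n k e q}.ncard := by
  have : Fact (Nat.Prime 3) := ⟨Nat.prime_three⟩
  obtain ⟨ζ, hζ⟩ := IsCyclotomicExtension.exists_isPrimitiveRoot ℚ F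
    (Set.mem_singleton 3) (by norm_num)
  have hθ2 : θ = 2 * hζ.toInteger + 1 ∨ θ = -(2 * hζ.toInteger + 1) := by
    have h2 : (θ - (2 * hζ.toInteger + 1)) * (θ + (2 * hζ.toInteger + 1)) = 0 := by
      linear_combination hθ - 4 * zI hζ
    rcases mul_eq_zero.1 h2 with h3 | h3
    · exact Or.inl (sub_eq_zero.1 h3)
    · exact Or.inr (eq_neg_of_add_eq_zero_left h3)
  have hdiv : ∀ x : 𝓞 F, 3 * (2 * hζ.toInteger + 1) ∣ x → 3 * θ ∣ x := by
    intro x hx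
    rcases hθ2 with h | h
    · rwa [h]
    · rw [h, mul_neg, neg_dvd]
      exact hx
  have h9 : 9 ∣ 3 ^ (n + 1) := by
    have : (9 : ℕ) = 3 ^ 2 := by norm_num
    rw [this]
    exact pow_dvd_pow _ (by omega)
  choose g hg1 hg2 hg3 using exists_norm_gen (F := F) hζ
  have hG := gd hζ (g := g) (fun v => ⟨hg1 v, hg2 v⟩)
  have hθc : ((2 * hζ.toInteger + 1 : 𝓞 F) : F) = 2 * ζ + 1 := by
    show algebraMap (𝓞 F) F _ = _
    rw [map_add, map_mul, map_one, map_ofNat]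
    rfl
  have e0 : (![ζ, 2 * ζ + 1] : Fin 2 → F) 0 = ζ := Matrix.cons_val_zero _ _
  have e1 : (![ζ, 2 * ζ + 1] : Fin 2 → F) 1 = 2 * ζ + 1 := Matrix.cons_val_one _ _
  have he3 : ∀ i, (e i : ZMod 3) ≠ 0 := fun i h => he i ((ZMod.natCast_eq_zero_iff _ 3).1 h)
  obtain ⟨hA0, hAG⟩ := hC k (fun i => (e i : ZMod 3)) he3
  have hN := h1 F ζ (2 * ζ + 1) hζ n hn0 (fun v => ((g v : 𝓞 F) : F)) hG (k + 1) _ _ (1 / 3)
    (fun τ hτ => (Finset.mem_filter.1 hτ).2) (fun τ hτ => (Finset.mem_filter.1 hτ).2.1) hA0 hAG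
  refine Pool.Agent.Q14.LK.nest_mono (k + 1) (fun X hX => ?_) hN
  obtain ⟨hf1, hf2, hp, hlt⟩ := hX
  have hset : {q ∈ (BoxN n X : Set (Fin (k + 1) → HeightOneSpectrum (𝓞 F))) |
      ∃ τ ∈ (Finset.univ : Finset (Tab 3 2 (k + 1))).filter fun τ => ∀ j, τ.1 j 0 = 0,
        Tb ζ ![ζ, 2 * ζ + 1] (fun v => ((g v : 𝓞 F) : F)) τ q} = TupN F n k X := by
    ext q
    constructor
    · rintro ⟨⟨⟨hq1, hq2⟩, hq3⟩, -⟩
      exact ⟨hq1, fun i => ⟨hq3 i, (hq2 i).2⟩⟩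
    · rintro ⟨hq1, hq2⟩
      have hns : ∀ i, ¬ Sm 3 (q i) := fun i => not_sm (h9.trans (hq2 i).1)
      refine ⟨⟨⟨hq1, fun i => ⟨hns i, (hq2 i).2⟩⟩, fun i => (hq2 i).1⟩,
        ⟨fun j l => sy 3 ζ (q j) ((![ζ, 2 * ζ + 1] : Fin 2 → F) l),
        fun x => sy 3 ζ (q x.1.2) ((g (q x.1.1) : 𝓞 F) : F)⟩, ?_, fun _ _ => rfl, fun _ => rfl⟩
      rw [Finset.mem_filter]
      refine ⟨Finset.mem_univ _, fun j => ?_⟩
      show sy 3 ζ (q j) ((![ζ, 2 * ζ + 1] : Fin 2 → F) 0) = 0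
      rw [e0]
      have h2 := hns j
      rw [sym3, not_or] at h2
      exact (sy_zeta_iff hζ h2.2).2 (h9.trans (hq2 j).1)
  have hsub : {q ∈ (BoxN n X : Set (Fin (k + 1) → HeightOneSpectrum (𝓞 F))) |
      ∃ τ ∈ (Finset.univ : Finset (Tab 3 2 (k + 1))).filter (fun τ =>
        (∀ j, τ.1 j 0 = 0) ∧ ∑ j, (e j : ZMod 3) * τ.1 j 1 ≠ 0 ∧ NS (fun i => (e i : ZMod 3)) τ.2),
        Tb ζ ![ζ, 2 * ζ + 1] (fun v => ((g v : 𝓞 F) : F)) τ q} ⊆ {q ∈ TupN F n k X | GfN F θ n k e q} := by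
    rintro q ⟨hq, τ, hτ, hT⟩
    obtain ⟨-, t1, t2, t3⟩ := Finset.mem_filter.1 hτ
    have hqT : q ∈ TupN F n k X := by
      rw [← hset]
      exact ⟨hq, τ, Finset.mem_filter.2 ⟨Finset.mem_univ _, t1⟩, hT⟩
    have h9q : ∀ i, 9 ∣ Ideal.absNorm (q i).asIdeal - 1 := fun i => h9.trans (hqT.2 i).1
    refine ⟨hqT, fun i => g (q i), fun i => ⟨hg1 _, hg2 _, hdiv _ (hg3 _ (h9q i))⟩, ?_⟩
    have ha : ∀ i, Prime (g (q i)) ∧ 3 * (2 * hζ.toInteger + 1) ∣ g (q i) - 1 := fun i =>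
      ⟨hg2 _, hg3 _ (h9q i)⟩
    have hinj : Function.Injective fun i => g (q i) := by
      intro i j hij
      apply hq.1.1
      apply HeightOneSpectrum.ext
      rw [hg1, hg1]
      exact congrArg (fun x => Ideal.span {x}) hij
    have hns : ∀ i, (3 : 𝓞 F) ∉ (q i).asIdeal := fun i h => (hq.1.2 i).1 ((sym3 _).2 (Or.inr h))
    have hs : ∀ x : {x : Fin (k + 1) × Fin (k + 1) // x.1 < x.2},
        Idx hζ (g (q x.1.2)) (g (q x.1.1)) (τ.2 x).val := by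
      intro x
      rw [← hT.2 x]
      refine idx_sy hζ (ha _).1 (hns x.1.2) ?_ ?_
      · have h2 := Ideal.mem_span_singleton_self (g (q x.1.2))
        rwa [← hg1 (q x.1.2)] at h2
      · intro h
        have h2 : q x.1.2 = q x.1.1 := by
          apply HeightOneSpectrum.ext
          rw [span_of_prime (ha x.1.1).1 h, hg1 (q x.1.1)]
        exact absurd (hq.1.1 h2) (ne_of_gt x.2)
    have ht : ∀ j, Idx hζ (g (q j)) (2 * hζ.toInteger + 1) (τ.1 j 1).val := by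
      intro j
      rw [← hT.1 j 1, e1, ← hθc]
      refine idx_sy hζ (ha _).1 (hns j) ?_ ?_
      · have h2 := Ideal.mem_span_singleton_self (g (q j))
        rwa [← hg1 (q j)] at h2
      · intro h
        apply hns j
        have h1 : -((2 * hζ.toInteger + 1) ^ 2) ∈ (q j).asIdeal :=
          (q j).asIdeal.neg_mem ((q j).asIdeal.pow_mem_of_mem h 2 (by norm_num))
        have h3 : (2 * hζ.toInteger + 1 : 𝓞 F) ^ 2 = -3 := by linear_combination 4 * zI hζ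
        rwa [h3, neg_neg] at h1
    exact fam_n hD hL hζ hn0 ha (fun i => by rw [← hg1]; exact (hqT.2 i).1) hinj he (s := τ.2)
      (t := fun j => τ.1 j 1) hs ht t2 t3
  rw [hset] at hf1 hp hlt
  have hfin2 : {q ∈ TupN F n k X | GfN F θ n k e q}.Finite := hf1.subset fun q hq => hq.1
  have hle := Set.ncard_le_ncard hsub hfin2
  refine ⟨hf1, hp, ?_⟩
  have h2 : (1 / 3 : ℝ) * ((TupN F n k X).ncard : ℝ) < ({q ∈ TupN F n k X | GfN F θ n k e q}.ncard : ℝ) :=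
    lt_of_lt_of_le hlt (by exact_mod_cast hle)
  have h3 : ((TupN F n k X).ncard : ℝ) < 3 * ({q ∈ TupN F n k X | GfN F θ n k e q}.ncard : ℝ) := by linarith
  exact_mod_cast h3

end

end Pool.Agent.H62.SH
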